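import Mathlib

/-!
Vertex-centroid moves of a polygon: in centred coordinates the moves are the maps `M i s`, and
compositions of them give the maps `T i j c`.
-/

set_option autoImplicit false

namespace Pool.Agent.Q236.CentroidMoves

open Complex Relation

variable {ι : Type} [Fintype ι] [DecidableEq ι]

/-- cross product of two complex numbers, seen as vectors of the plane -/
def cr (a b : ℂ) : ℝ := a.re * b.im - a.im * b.re

/-- a move in centred coordinates -/
noncomputable def M (i : ι) (s : ℝ) (a : ι → ℂ) : ι → ℂ := fun k =>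
  if k = i then (1 + ((Fintype.card ι : ℂ) - 1) * s) * a i else a k - s * a i

/-- a composed move -/
noncomputable def T (i j : ι) (c : ℝ) (a : ι → ℂ) : ι → ℂ := fun k =>
  if k = i then a i + c * (a i + a j) else if k = j then a j - c * (a i + a j) else a k

/-- one centred move -/
def NStep (a b : ι → ℂ) : Prop := ∃ i, ∃ s : ℝ, b = M i s a

/-- one composed move -/
def TStep (a b : ι → ℂ) : Prop := ∃ i j, ∃ c : ℝ, i ≠ j ∧ b = T i j c a

theorem T_eq {i j : ι} (hij : i ≠ j) (t : ℝ) (ht : 1 + t * ((Fintype.card ι : ℝ) - 1) ≠ 0)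
    (a : ι → ℂ) : T i j (t * ((Fintype.card ι : ℝ) + 1)) a =
      M j 1 (M i t (M j (-1 / Fintype.card ι) (M i 1
        (M j (-t / (1 + t * ((Fintype.card ι : ℝ) - 1))) (M i (-1 / Fintype.card ι) a))))) := by
  have hn : (Fintype.card ι : ℂ) ≠ 0 := by
    have : Fintype.card ι ≠ 0 := (Fintype.card_pos_iff.2 ⟨i⟩).ne'
    exact_mod_cast this
  have ht' : (1 + (t : ℂ) * ((Fintype.card ι : ℂ) - 1)) ≠ 0 := by
    exact_mod_cast ht
  have hji : j ≠ i := hij.symm
  funext k
  by_cases hki : k = i
  · subst hki
    simp only [T, M, if_true, hij, hji, if_false]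
    push_cast
    field_simp
    ring
  · by_cases hkj : k = j
    · subst hkj
      simp only [T, M, if_true, hij, hji, if_false]
      push_cast
      field_simp
      ring
    · simp only [T, M, if_true, hij, hji, hki, hkj, if_false]
      push_cast
      field_simp
      ring

omit [Fintype ι] in
theorem T_add {i j : ι} (hij : i ≠ j) (c d : ℝ) (a : ι → ℂ) :
    T i j (c + d) a = T i j c (T i j d a) := by
  have hji : j ≠ i := hij.symm
  funext k
  by_cases hki : k = i
  · subst hki
    simp only [T, if_true, hji, if_false]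
    push_cast
    ring
  · by_cases hkj : k = j
    · subst hkj
      simp only [T, if_true, hji, if_false]
      push_cast
      ring
    · simp only [T, hki, hkj, if_false]

omit [Fintype ι] in
theorem T_zero (i j : ι) (a : ι → ℂ) : T i j 0 a = a := by
  funext k
  by_cases hki : k = i
  · subst hki; simp [T]
  · by_cases hkj : k = j
    · subst hkj; simp only [T, hki, if_false, if_true]; simp
    · simp [T, hki, hkj]

theorem NStep.rt (i : ι) (s : ℝ) (a b : ι → ℂ) (h : ReflTransGen NStep b a) :
    ReflTransGen NStep b (M i s a) := h.tail ⟨i, s, rfl⟩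

theorem T_reach' {i j : ι} (hij : i ≠ j) (t : ℝ) (ht : 1 + t * ((Fintype.card ι : ℝ) - 1) ≠ 0)
    (a : ι → ℂ) : ReflTransGen NStep a (T i j (t * ((Fintype.card ι : ℝ) + 1)) a) := by
  rw [T_eq hij t ht]
  refine NStep.rt _ _ _ _ (NStep.rt _ _ _ _ (NStep.rt _ _ _ _ (NStep.rt _ _ _ _
    (NStep.rt _ _ _ _ (NStep.rt _ _ _ _ ReflTransGen.refl)))))

theorem T_reach {i j : ι} (hij : i ≠ j) (c : ℝ) (a : ι → ℂ) :
    ReflTransGen NStep a (T i j c a) := by
  have hn : (0 : ℝ) < (Fintype.card ι : ℝ) + 1 := by positivity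
  by_cases h : 1 + (c / ((Fintype.card ι : ℝ) + 1)) * ((Fintype.card ι : ℝ) - 1) = 0
  · have h2 : 1 + (c / 2 / ((Fintype.card ι : ℝ) + 1)) * ((Fintype.card ι : ℝ) - 1) ≠ 0 := by
      intro h3
      have : c / 2 / ((Fintype.card ι : ℝ) + 1) = (c / ((Fintype.card ι : ℝ) + 1)) / 2 := by ring
      rw [this] at h3
      linarith
    have h3 : ∀ b : ι → ℂ, ReflTransGen NStep b (T i j (c / 2) b) := by
      intro b
      have := T_reach' hij _ h2 b
      rwa [div_mul_cancel₀ _ hn.ne'] at this
    have h4 : T i j c a = T i j (c / 2) (T i j (c / 2) a) := by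
      rw [← T_add hij]; congr 1; ring
    rw [h4]
    exact (h3 a).trans (h3 _)
  · have := T_reach' hij _ h a
    rwa [div_mul_cancel₀ _ hn.ne'] at this

theorem reach_of_TStep {a b : ι → ℂ} (h : ReflTransGen TStep a b) : ReflTransGen NStep a b := by
  induction h with
  | refl => exact ReflTransGen.refl
  | tail _ h ih =>
    obtain ⟨i, j, c, hij, rfl⟩ := h
    exact ih.trans (T_reach hij c _)

omit [Fintype ι] in
theorem TStep_symm {a b : ι → ℂ} (h : TStep a b) : TStep b a := by
  obtain ⟨i, j, c, hij, rfl⟩ := h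
  refine ⟨i, j, -c, hij, ?_⟩
  rw [← T_add hij, neg_add_cancel, T_zero]

omit [Fintype ι] in
theorem RT_symm {a b : ι → ℂ} (h : ReflTransGen TStep a b) : ReflTransGen TStep b a := by
  induction h with
  | refl => exact ReflTransGen.refl
  | tail _ h ih => exact ReflTransGen.head (TStep_symm h) ih

/-! ### three coordinates -/

/-- The key computation: any property of triples that is stable under the three kinds of moves and
holds for a triple of sum `1`, not all real, holds for `(I, 1 - I, 0)`. -/
theorem canon (P : ℂ → ℂ → ℂ → Prop)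
    (h1 : ∀ x y z (c : ℝ), P x y z → P (x + c * (x + y)) (y - c * (x + y)) z)
    (h2 : ∀ x y z (c : ℝ), P x y z → P x (y + c * (y + z)) (z - c * (y + z)))
    (h3 : ∀ x y z (c : ℝ), P x y z → P (x + c * (x + z)) y (z - c * (x + z)))
    (x y z : ℂ) (hs : x + y + z = 1) (hne : ¬ (x.im = 0 ∧ y.im = 0 ∧ z.im = 0))
    (h : P x y z) : P I (1 - I) 0 := by
  -- the class of triples with third entry real
  have w1 : ∀ (x : ℂ) (κ l : ℝ), l ≠ 0 → P x (1 - κ - x) κ →
      ∃ x' : ℂ, x'.im = l * x.im ∧
        P x' (1 - ((1 + κ) / l - 1 : ℝ) - x') ((1 + κ) / l - 1 : ℝ) := by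
    intro x κ l hl h
    have hl' : (l : ℂ) ≠ 0 := by exact_mod_cast hl
    refine ⟨l * x + (((l - 1) / l * (κ - l + 1) : ℝ) : ℂ), by simp, ?_⟩
    have := h3 _ _ _ ((l - 1) / l) (h2 _ _ _ (l - 1) h)
    convert this using 1
    · push_cast; field_simp; ring
    · push_cast; field_simp; ring
    · push_cast; field_simp; ring
  have w2 : ∀ (x : ℂ) (κ l : ℝ), l ≠ 0 → P x (1 - κ - x) κ →
      ∃ x' : ℂ, x'.im = l * x.im ∧
        P x' (1 - (1 - (1 - κ) / l : ℝ) - x') (1 - (1 - κ) / l : ℝ) := by
    intro x κ l hl h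
    have hl' : (l : ℂ) ≠ 0 := by exact_mod_cast hl
    refine ⟨l * x + (((1 - l) * (2 - κ) : ℝ) : ℂ), by simp, ?_⟩
    have := h2 _ _ _ (-1 / l) (h1 _ _ _ (1 - l) (h2 _ _ _ 1 h))
    convert this using 1
    · push_cast; field_simp; ring
    · push_cast; field_simp; ring
    · push_cast; field_simp; ring
  -- the good case
  have good : ∀ (x : ℂ) (κ : ℝ), x.im ≠ 0 → (1 + κ) * x.im ≠ -1 → P x (1 - κ - x) κ →
      P I (1 - I) 0 := by
    intro x κ hx hk h
    obtain ⟨l, hl⟩ : ∃ l : ℝ, l = (1 + (1 + κ) * x.im) / (2 * x.im) := ⟨_, rfl⟩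
    have hl0 : l ≠ 0 := by
      rw [hl]
      apply div_ne_zero
      · intro h0; apply hk; linarith
      · simpa using hx
    have hlx : l * x.im ≠ 0 := mul_ne_zero hl0 hx
    obtain ⟨x1, hx1, a1⟩ := w1 x κ l hl0 h
    obtain ⟨x2, hx2, a2⟩ := w2 x1 _ (1 / (l * x.im)) (one_div_ne_zero hlx) a1
    have hκ : (1 - (1 - ((1 + κ) / l - 1)) / (1 / (l * x.im)) : ℝ) = 0 := by
      field_simp
      rw [hl]
      field_simp
      ring
    rw [hκ] at a2
    have him : x2.im = 1 := by
      rw [hx2, hx1]
      field_simp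
    have a3 := h1 _ _ _ (-x2.re) a2
    have e1 : x2 + ((-x2.re : ℝ) : ℂ) * (x2 + (1 - ((0 : ℝ) : ℂ) - x2)) = I := by
      apply Complex.ext
      · simp
      · simp [him]
    have e2 : (1 - ((0 : ℝ) : ℂ) - x2) - ((-x2.re : ℝ) : ℂ) * (x2 + (1 - ((0 : ℝ) : ℂ) - x2)) =
        1 - I := by
      apply Complex.ext
      · simp
      · simp [him]
    rw [e1, e2] at a3
    simpa using a3
  -- the class
  have cls : ∀ (x : ℂ) (κ : ℝ), x.im ≠ 0 → P x (1 - κ - x) κ → P I (1 - I) 0 := by
    intro x κ hx h
    by_cases hk : (1 + κ) * x.im = -1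
    · obtain ⟨x1, hx1, a1⟩ := w2 x κ 2 (by norm_num) h
      refine good x1 _ ?_ ?_ a1
      · rw [hx1]; simpa using hx
      · rw [hx1]
        intro h0
        apply hx
        linarith
    · exact good x κ hx hk h
  -- reduction to the class
  have hzy : x.im + y.im + z.im = 0 := by
    have := congrArg Complex.im hs
    simpa using this
  have red : ∀ (x y z : ℂ), x + y + z = 1 → z.im = 0 → x.im ≠ 0 → P x y z → P I (1 - I) 0 := by
    intro x y z hs hz hx h
    have e1 : z = (z.re : ℂ) := by
      apply Complex.ext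
      · simp
      · simp [hz]
    have e2 : y = 1 - (z.re : ℂ) - x := by rw [← e1]; linear_combination hs
    rw [e2, e1] at h
    simp only [Complex.ofReal_re] at h
    exact cls x z.re hx h
  by_cases hz : z.im = 0
  · by_cases hx : x.im = 0
    · exact absurd ⟨hx, by linarith, hz⟩ hne
    · exact red x y z hs hz hx h
  · by_cases hx : x.im = 0
    · have hy : y.im ≠ 0 := by
        intro hy; apply hz; linarith
      have a := h3 _ _ _ 1 h
      refine red _ _ _ ?_ ?_ ?_ a
      · linear_combination hs
      · simp; linarith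
      · simp [hx, hz]
    · have a := h2 _ _ _ (z.im / (y.im + z.im)) h
      refine red _ _ _ ?_ ?_ hx a
      · linear_combination hs
      · have hyz : y.im + z.im ≠ 0 := by
          intro h0; apply hx; linarith
        rw [Complex.sub_im, Complex.im_ofReal_mul, Complex.add_im]
        field_simp
        ring

/-- change three coordinates -/
def upd (i j k : ι) (x y z : ℂ) (a : ι → ℂ) : ι → ℂ := fun l =>
  if l = i then x else if l = j then y else if l = k then z else a l

omit [Fintype ι] in
theorem upd_self {i j k : ι} (a : ι → ℂ) : upd i j k (a i) (a j) (a k) a = a := by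
  funext l
  unfold upd
  split_ifs with h1 h2 h3
  · rw [h1]
  · rw [h2]
  · rw [h3]
  · rfl

omit [Fintype ι] in
theorem T_upd_ij {i j k : ι} (hij : i ≠ j) (x y z : ℂ) (c : ℝ) (a : ι → ℂ) :
    T i j c (upd i j k x y z a) = upd i j k (x + c * (x + y)) (y - c * (x + y)) z a := by
  have hji := hij.symm
  funext l
  by_cases h1 : l = i
  · subst h1; simp [T, upd, hji]
  · by_cases h2 : l = j
    · subst h2; simp [T, upd, hji]
    · simp [T, upd, h1, h2]

omit [Fintype ι] in
theorem T_upd_jk {i j k : ι} (hij : i ≠ j) (hik : i ≠ k) (hjk : j ≠ k) (x y z : ℂ) (c : ℝ)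
    (a : ι → ℂ) :
    T j k c (upd i j k x y z a) = upd i j k x (y + c * (y + z)) (z - c * (y + z)) a := by
  have hji := hij.symm
  have hki := hik.symm
  have hkj := hjk.symm
  funext l
  by_cases h1 : l = i
  · subst h1; simp [T, upd, hij, hik]
  · by_cases h2 : l = j
    · subst h2; simp [T, upd, hji, hki, hkj]
    · by_cases h3 : l = k
      · subst h3; simp [T, upd, hki, hkj, hji]
      · simp [T, upd, h1, h2, h3]

omit [Fintype ι] in
theorem T_upd_ik {i j k : ι} (hij : i ≠ j) (hik : i ≠ k) (hjk : j ≠ k) (x y z : ℂ) (c : ℝ)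
    (a : ι → ℂ) :
    T i k c (upd i j k x y z a) = upd i j k (x + c * (x + z)) y (z - c * (x + z)) a := by
  have hji := hij.symm
  have hki := hik.symm
  have hkj := hjk.symm
  funext l
  by_cases h1 : l = i
  · subst h1; simp [T, upd, hki, hkj]
  · by_cases h2 : l = j
    · subst h2; simp [T, upd, hji, hjk]
    · by_cases h3 : l = k
      · subst h3; simp [T, upd, hki, hkj]
      · simp [T, upd, h1, h2, h3]

theorem cr_mul (S x y : ℂ) : cr (x * S) (y * S) = normSq S * cr x y := by
  simp only [cr, Complex.mul_re, Complex.mul_im, Complex.normSq_apply]; ring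

omit [Fintype ι] in
/-- reaching the canonical triple -/
theorem to_canon {i j k : ι} (hij : i ≠ j) (hik : i ≠ k) (hjk : j ≠ k) (a : ι → ℂ) (x y z S : ℂ)
    (hS : S ≠ 0) (hs : x + y + z = S) (hne : cr x y ≠ 0 ∨ cr x z ≠ 0 ∨ cr y z ≠ 0) :
    ReflTransGen TStep (upd i j k x y z a) (upd i j k (I * S) ((1 - I) * S) 0 a) := by
  have key := canon (fun x' y' z' => ReflTransGen TStep (upd i j k x y z a)
    (upd i j k (x' * S) (y' * S) (z' * S) a)) ?_ ?_ ?_ (x / S) (y / S) (z / S) ?_ ?_ ?_
  · simpa using key
  · intro x' y' z' c h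
    refine h.tail ⟨i, j, c, hij, ?_⟩
    rw [T_upd_ij hij]
    congr 1 <;> ring
  · intro x' y' z' c h
    refine h.tail ⟨j, k, c, hjk, ?_⟩
    rw [T_upd_jk hij hik hjk]
    congr 1 <;> ring
  · intro x' y' z' c h
    refine h.tail ⟨i, k, c, hik, ?_⟩
    rw [T_upd_ik hij hik hjk]
    congr 1 <;> ring
  · rw [← add_div, ← add_div, hs, div_self hS]
  · rintro ⟨h1, h2, h3⟩
    have e : ∀ u v : ℂ, (u / S).im = 0 → (v / S).im = 0 → cr u v = 0 := by
      intro u v hu hv
      have : cr u v = cr (u / S * S) (v / S * S) := by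
        rw [div_mul_cancel₀ _ hS, div_mul_cancel₀ _ hS]
      rw [this, cr_mul, cr, hu, hv]
      ring
    rcases hne with h | h | h
    · exact h (e _ _ h1 h2)
    · exact h (e _ _ h1 h3)
    · exact h (e _ _ h2 h3)
  · simp only [div_mul_cancel₀ _ hS]
    exact ReflTransGen.refl

omit [Fintype ι] in
/-- transitivity on triples with the same sum -/
theorem trans3 {i j k : ι} (hij : i ≠ j) (hik : i ≠ k) (hjk : j ≠ k) (a : ι → ℂ)
    (x y z x' y' z' : ℂ) (hS : x + y + z ≠ 0) (hs : x' + y' + z' = x + y + z)
    (hne : cr x y ≠ 0 ∨ cr x z ≠ 0 ∨ cr y z ≠ 0)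
    (hne' : cr x' y' ≠ 0 ∨ cr x' z' ≠ 0 ∨ cr y' z' ≠ 0) :
    ReflTransGen TStep (upd i j k x y z a) (upd i j k x' y' z' a) :=
  (to_canon hij hik hjk a x y z _ hS rfl hne).trans
    (RT_symm (to_canon hij hik hjk a x' y' z' _ hS hs hne'))

/-- the configuration with three nonzero entries -/
def K (i j k : ι) (p q : ℂ) : ι → ℂ := upd i j k p q (-p - q) (fun _ => 0)

/-- not all entries parallel -/
def rk (a : ι → ℂ) : Prop := ∃ i j, cr (a i) (a j) ≠ 0

theorem cr_comm (a b : ℂ) : cr a b = - cr b a := by simp only [cr]; ring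

theorem cr_vec (d u v : ℂ) : (cr u v : ℂ) * d = cr d v * u - cr d u * v := by
  apply Complex.ext
  · simp [cr]; ring
  · simp [cr]; ring

omit [DecidableEq ι] in
theorem sum_upd [DecidableEq ι] {i j k : ι} (hij : i ≠ j) (hik : i ≠ k) (hjk : j ≠ k) (x y z : ℂ)
    (a : ι → ℂ) : ∑ l, upd i j k x y z a l = ∑ l, a l + (x + y + z - (a i + a j + a k)) := by
  have h : ∀ l, upd i j k x y z a l = a l + ((if l = i then x - a i else 0) +
      (if l = j then y - a j else 0) + (if l = k then z - a k else 0)) := by
    intro l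
    unfold upd
    by_cases h1 : l = i
    · subst h1; simp [hij, hik]
    · by_cases h2 : l = j
      · subst h2; simp [h1, hjk]
      · by_cases h3 : l = k
        · subst h3; simp [h1, h2]
        · simp [h1, h2, h3]
  rw [Finset.sum_congr rfl (fun l _ => h l), Finset.sum_add_distrib, Finset.sum_add_distrib,
    Finset.sum_add_distrib]
  simp
  ring

/-- Reduction to a configuration with three nonzero entries at prescribed places. -/
theorem reduce {i0 i1 i2 : ι} (h01 : i0 ≠ i1) (h02 : i0 ≠ i2) (h12 : i1 ≠ i2) :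
    ∀ (N : ℕ) (a : ι → ℂ), ∑ l, a l = 0 → rk a →
      (Finset.univ.filter (fun l => (l ≠ i0 ∧ l ≠ i1 ∧ l ≠ i2) ∧ a l ≠ 0)).card = N →
      ∃ p q, cr p q ≠ 0 ∧ ReflTransGen TStep a (K i0 i1 i2 p q) := by
  intro N
  induction N using Nat.strong_induction_on with
  | _ N ih =>
  intro a hsum hrk hN
  by_cases hex : ∃ k, (k ≠ i0 ∧ k ≠ i1 ∧ k ≠ i2) ∧ a k ≠ 0
  · obtain ⟨k, ⟨hk0, hk1, hk2⟩, hk⟩ := hex
    -- an index i with a i not parallel to a k
    obtain ⟨i, hi⟩ : ∃ i, cr (a i) (a k) ≠ 0 := by
      by_contra hcon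
      push Not at hcon
      obtain ⟨u, v, huv⟩ := hrk
      apply huv
      have e := cr_vec (a k) (a u) (a v)
      have e1 : cr (a k) (a v) = 0 := by rw [cr_comm, hcon, neg_zero]
      have e2 : cr (a k) (a u) = 0 := by rw [cr_comm, hcon, neg_zero]
      rw [e1, e2] at e
      simp only [Complex.ofReal_zero, zero_mul, sub_zero, mul_eq_zero, hk, or_false,
        Complex.ofReal_eq_zero] at e
      exact e
    have hik : i ≠ k := by
      rintro rfl
      apply hi
      simp only [cr]; ring
    have hai : a i ≠ 0 := by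
      intro h0
      apply hi
      rw [h0]; simp [cr]
    -- an index j
    obtain ⟨j, hji, hjk, hjI, hS⟩ : ∃ j, j ≠ i ∧ j ≠ k ∧ (j = i0 ∨ j = i1 ∨ j = i2 ∨ a j ≠ 0) ∧
        a i + a j + a k ≠ 0 := by
      by_contra hcon
      push Not at hcon
      -- two special indices
      obtain ⟨j1, j2, hj12, hj1i, hj2i, hj1, hj2⟩ : ∃ j1 j2, j1 ≠ j2 ∧ j1 ≠ i ∧ j2 ≠ i ∧
          (j1 = i0 ∨ j1 = i1 ∨ j1 = i2) ∧ (j2 = i0 ∨ j2 = i1 ∨ j2 = i2) := by
        by_cases h0 : i = i0
        · exact ⟨i1, i2, h12, by rw [h0]; exact h01.symm, by rw [h0]; exact h02.symm, by tauto,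
            by tauto⟩
        · by_cases h1 : i = i1
          · exact ⟨i0, i2, h02, Ne.symm h0, by rw [h1]; exact h12.symm, by tauto, by tauto⟩
          · exact ⟨i0, i1, h01, Ne.symm h0, Ne.symm h1, by tauto, by tauto⟩
      have hj1k : j1 ≠ k := by
        rintro rfl; rcases hj1 with h | h | h
        · exact hk0 h
        · exact hk1 h
        · exact hk2 h
      have hj2k : j2 ≠ k := by
        rintro rfl; rcases hj2 with h | h | h
        · exact hk0 h
        · exact hk1 h
        · exact hk2 h
      set δ := cr (a i) (a k) with hδ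
      -- the function g
      have hg : ∀ l, cr (a l) (a k) / δ ≤ (if l = i then 1 else 0) -
          (if l = j1 then 1 else 0) - (if l = j2 then 1 else 0) := by
        intro l
        by_cases hli : l = i
        · subst hli
          simp only [if_true, if_neg (Ne.symm hj1i), if_neg (Ne.symm hj2i), sub_zero]
          rw [← hδ, div_self hi]
        · have hval : ∀ l, l ≠ i → l ≠ k → (l = i0 ∨ l = i1 ∨ l = i2 ∨ a l ≠ 0) →
              cr (a l) (a k) / δ = -1 := by
            intro l h1 h2 h3
            have h4 := hcon l h1 h2 h3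
            have h5 : a l = -(a i) - a k := by linear_combination h4
            have h6 : cr (a l) (a k) = -δ := by
              rw [h5, hδ]; simp only [cr, Complex.sub_re, Complex.sub_im, Complex.neg_re,
                Complex.neg_im]; ring
            rw [h6, neg_div, div_self hi]
          rw [if_neg hli]
          by_cases hl1 : l = j1
          · subst hl1
            rw [hval l hli hj1k (by tauto), if_pos rfl, if_neg hj12]
            norm_num
          · rw [if_neg hl1]
            by_cases hl2 : l = j2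
            · subst hl2
              rw [hval l hli hj2k (by tauto), if_pos rfl]
              norm_num
            · rw [if_neg hl2]
              by_cases hlk : l = k
              · subst hlk
                have : cr (a l) (a l) = 0 := by simp only [cr]; ring
                rw [this]; simp
              · by_cases hl0 : a l = 0
                · rw [hl0]; simp [cr]
                · rw [hval l hli hlk (by tauto)]; norm_num
      have hsum0 : ∑ l, cr (a l) (a k) / δ = 0 := by
        rw [← Finset.sum_div]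
        have : ∑ l, cr (a l) (a k) = cr (∑ l, a l) (a k) := by
          simp only [cr, Complex.re_sum, Complex.im_sum, Finset.sum_sub_distrib, Finset.sum_mul]
        rw [this, hsum]; simp [cr]
      have hle := Finset.sum_le_sum (fun l (_ : l ∈ Finset.univ) => hg l)
      rw [hsum0, Finset.sum_sub_distrib, Finset.sum_sub_distrib] at hle
      simp at hle
      linarith
    -- apply the triple lemma
    set S := a i + a j + a k with hSdef
    have hstep : ReflTransGen TStep a (upd i j k (I * S) ((1 - I) * S) 0 a) := by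
      have := to_canon hji.symm hik hjk a (a i) (a j) (a k) S hS rfl (Or.inr (Or.inl hi))
      rwa [upd_self] at this
    set b := upd i j k (I * S) ((1 - I) * S) 0 a with hb
    have hbsum : ∑ l, b l = 0 := by
      rw [hb, sum_upd hji.symm hik hjk, hsum, ← hSdef]; ring
    have hbi : b i = I * S := by simp [hb, upd]
    have hbj : b j = (1 - I) * S := by simp [hb, upd, hji]
    have hbk : b k = 0 := by simp [hb, upd, hik.symm, hjk.symm]
    have hbrk : rk b := by
      refine ⟨i, j, ?_⟩
      rw [hbi, hbj, cr_mul]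
      have : cr I (1 - I) = -1 := by simp [cr]
      rw [this]
      have := (Complex.normSq_pos.2 hS).ne'
      simpa using this
    have hcard : (Finset.univ.filter (fun l => (l ≠ i0 ∧ l ≠ i1 ∧ l ≠ i2) ∧ b l ≠ 0)).card < N := by
      rw [← hN]
      apply Finset.card_lt_card
      rw [Finset.ssubset_iff_of_subset]
      · refine ⟨k, ?_, ?_⟩
        · simp [hk0, hk1, hk2, hk]
        · simp [hbk]
      · intro l hl
        simp only [Finset.mem_filter, Finset.mem_univ, true_and] at hl ⊢
        refine ⟨hl.1, ?_⟩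
        by_cases h1 : l = i
        · rw [h1]; exact hai
        · by_cases h2 : l = j
          · subst h2
            rcases hjI with h | h | h | h
            · exact absurd h hl.1.1
            · exact absurd h hl.1.2.1
            · exact absurd h hl.1.2.2
            · exact h
          · by_cases h3 : l = k
            · rw [h3]; exact hk
            · have : b l = a l := by simp [hb, upd, h1, h2, h3]
              rw [← this]; exact hl.2
    obtain ⟨p, q, hpq, hpr⟩ := ih _ hcard b hbsum hbrk rfl
    exact ⟨p, q, hpq, hstep.trans hpr⟩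
  · push Not at hex
    have hz : ∀ l, l ≠ i0 → l ≠ i1 → l ≠ i2 → a l = 0 := fun l h0 h1 h2 => by
      by_contra hne
      exact hne (hex l ⟨h0, h1, h2⟩)
    have ha : a = upd i0 i1 i2 (a i0) (a i1) (a i2) (fun _ => 0) := by
      funext l
      unfold upd
      split_ifs with h1 h2 h3
      · rw [h1]
      · rw [h2]
      · rw [h3]
      · exact hz l h1 h2 h3
    have hs3 : a i0 + a i1 + a i2 = 0 := by
      have := sum_upd h01 h02 h12 (a i0) (a i1) (a i2) (fun _ : ι => (0 : ℂ))
      rw [← ha, hsum] at this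
      simpa using this.symm
    have h2 : a i2 = -(a i0) - a i1 := by linear_combination hs3
    refine ⟨a i0, a i1, ?_, ?_⟩
    · intro h0
      obtain ⟨u, v, huv⟩ := hrk
      apply huv
      have hall : ∀ u v, cr (a u) (a v) = 0 := by
        have hc : ∀ u, ∃ s t : ℝ, a u = s * a i0 + t * a i1 := by
          intro u
          by_cases u0 : u = i0
          · exact ⟨1, 0, by rw [u0]; simp⟩
          by_cases u1 : u = i1
          · exact ⟨0, 1, by rw [u1]; simp⟩
          by_cases u2 : u = i2
          · exact ⟨-1, -1, by rw [u2, h2]; push_cast; ring⟩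
          · exact ⟨0, 0, by rw [hz u u0 u1 u2]; simp⟩
        intro u v
        obtain ⟨s, t, hu⟩ := hc u
        obtain ⟨s', t', hv⟩ := hc v
        have : cr (a u) (a v) = (s * t' - t * s') * cr (a i0) (a i1) := by
          rw [hu, hv]
          simp [cr]
          ring
        rw [this, h0, mul_zero]
      exact hall u v
    · have : K i0 i1 i2 (a i0) (a i1) = a := by
        unfold K
        rw [← h2, ← ha]
      rw [this]

omit [Fintype ι] in
/-- Moving between configurations with three nonzero entries, with the help of a fourth place. -/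
theorem four {i0 i1 i2 i3 : ι} (h01 : i0 ≠ i1) (h02 : i0 ≠ i2) (h12 : i1 ≠ i2) (h03 : i0 ≠ i3)
    (h13 : i1 ≠ i3) (h23 : i2 ≠ i3) (p q p' q' : ℂ) (h : cr p q ≠ 0) (h' : cr p' q' ≠ 0) :
    ReflTransGen TStep (K i0 i1 i2 p q) (K i0 i1 i2 p' q') := by
  have hp : p ≠ 0 := by rintro rfl; simp [cr] at h
  have hp' : p' ≠ 0 := by rintro rfl; simp [cr] at h'
  obtain ⟨z, hz1, hz2⟩ : ∃ z, cr p z ≠ 0 ∧ cr p' z ≠ 0 := by
    by_cases h1 : cr p' q = 0
    · refine ⟨q + p, ?_, ?_⟩
      · have : cr p (q + p) = cr p q := by simp only [cr, Complex.add_re, Complex.add_im]; ring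
        rw [this]; exact h
      · have : cr p' (q + p) = cr p' q + cr p' p := by
          simp only [cr, Complex.add_re, Complex.add_im]; ring
        rw [this, h1, zero_add]
        intro h2
        have e := cr_vec p' p q
        rw [h1, h2] at e
        simp only [Complex.ofReal_zero, zero_mul, sub_zero, mul_eq_zero, hp', or_false,
          Complex.ofReal_eq_zero] at e
        exact h e
    · exact ⟨q, h, h1⟩
  have hz : z ≠ 0 := by rintro rfl; simp [cr] at hz1
  -- the configurations as updates of four places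
  set c4 : ℂ → ℂ → ℂ → ℂ → ι → ℂ := fun x y z w l => if l = i0 then x else if l = i1 then y else
    if l = i2 then z else if l = i3 then w else 0 with hc4
  have e1 : ∀ x y z w, c4 x y z w = upd i1 i2 i3 y z w (fun l => if l = i0 then x else 0) := by
    intro x y z w
    funext l
    simp only [hc4, upd]
    by_cases a0 : l = i0
    · subst a0; simp [h01, h02, h03]
    · simp [a0]
  have e2 : ∀ x y z w, c4 x y z w = upd i0 i1 i2 x y z (fun l => if l = i3 then w else 0) := by
    intro x y z w
    rfl
  have e3 : ∀ p q, K i0 i1 i2 p q = c4 p q (-p - q) 0 := by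
    intro p q
    rw [e2]
    unfold K
    congr 1
    funext l
    simp
  rw [e3, e3]
  have s1 : ReflTransGen TStep (c4 p q (-p - q) 0) (c4 p 0 (-p - z) z) := by
    rw [e1, e1]
    apply trans3 h12 h13 h23
    · have : q + (-p - q) + 0 = -p := by ring
      rw [this]; simpa using hp
    · ring
    · left
      have : cr q (-p - q) = cr p q := by
        simp only [cr, Complex.sub_re, Complex.sub_im, Complex.neg_re, Complex.neg_im]; ring
      rw [this]; exact h
    · right; right
      have : cr (-p - z) z = - cr p z := by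
        simp only [cr, Complex.sub_re, Complex.sub_im, Complex.neg_re, Complex.neg_im]; ring
      rw [this]; simpa using hz1
  have s2 : ReflTransGen TStep (c4 p 0 (-p - z) z) (c4 p' 0 (-p' - z) z) := by
    rw [e2, e2]
    apply trans3 h01 h02 h12
    · have : p + 0 + (-p - z) = -z := by ring
      rw [this]; simpa using hz
    · ring
    · right; left
      have : cr p (-p - z) = - cr p z := by
        simp only [cr, Complex.sub_re, Complex.sub_im, Complex.neg_re, Complex.neg_im]; ring
      rw [this]; simpa using hz1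
    · right; left
      have : cr p' (-p' - z) = - cr p' z := by
        simp only [cr, Complex.sub_re, Complex.sub_im, Complex.neg_re, Complex.neg_im]; ring
      rw [this]; simpa using hz2
  have s3 : ReflTransGen TStep (c4 p' 0 (-p' - z) z) (c4 p' q' (-p' - q') 0) := by
    rw [e1, e1]
    apply trans3 h12 h13 h23
    · have : 0 + (-p' - z) + z = -p' := by ring
      rw [this]; simpa using hp'
    · ring
    · right; right
      have : cr (-p' - z) z = - cr p' z := by
        simp only [cr, Complex.sub_re, Complex.sub_im, Complex.neg_re, Complex.neg_im]; ring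
      rw [this]; simpa using hz2
    · left
      have : cr q' (-p' - q') = cr p' q' := by
        simp only [cr, Complex.sub_re, Complex.sub_im, Complex.neg_re, Complex.neg_im]; ring
      rw [this]; exact h'
  exact (s1.trans s2).trans s3

/-- With at least four indices, any two configurations of sum zero, not on a line, are connected. -/
theorem connect (hn : 4 ≤ Fintype.card ι) (a b : ι → ℂ) (ha : ∑ l, a l = 0) (hb : ∑ l, b l = 0)
    (hra : rk a) (hrb : rk b) : ReflTransGen NStep a b := by
  obtain ⟨f⟩ : Nonempty (Fin 4 ↪ ι) := by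
    rw [Function.Embedding.nonempty_iff_card_le]
    simpa using hn
  have hne : ∀ u v : Fin 4, u ≠ v → f u ≠ f v := fun u v h => f.injective.ne h
  obtain ⟨p, q, hpq, h1⟩ := reduce (hne 0 1 (by decide)) (hne 0 2 (by decide))
    (hne 1 2 (by decide)) _ a ha hra rfl
  obtain ⟨p', q', hpq', h2⟩ := reduce (hne 0 1 (by decide)) (hne 0 2 (by decide))
    (hne 1 2 (by decide)) _ b hb hrb rfl
  have h3 := four (hne 0 1 (by decide)) (hne 0 2 (by decide))
    (hne 1 2 (by decide)) (hne 0 3 (by decide)) (hne 1 3 (by decide)) (hne 2 3 (by decide))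
    p q p' q' hpq hpq'
  exact reach_of_TStep ((h1.trans h3).trans (RT_symm h2))

/-! ### three indices -/

omit [Fintype ι] in
theorem shear1 {i j k : ι} (hij : i ≠ j) (hik : i ≠ k) (hjk : j ≠ k) (p q : ℂ) (c : ℝ) :
    ReflTransGen TStep (K i j k p q) (K i j k p (q + c * p)) := by
  refine ReflTransGen.single ⟨j, k, -c, hjk, ?_⟩
  unfold K
  rw [T_upd_jk hij hik hjk]
  congr 1 <;> push_cast <;> ring

omit [Fintype ι] in
theorem shear2 {i j k : ι} (hij : i ≠ j) (hik : i ≠ k) (hjk : j ≠ k) (p q : ℂ) (c : ℝ) :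
    ReflTransGen TStep (K i j k p q) (K i j k (p + c * q) q) := by
  refine ReflTransGen.single ⟨i, k, -c, hik, ?_⟩
  unfold K
  rw [T_upd_ik hij hik hjk]
  congr 1 <;> push_cast <;> ring

theorem real_of_cr {p w : ℂ} (hp : p ≠ 0) (h : cr p w = 0) : ∃ e : ℝ, w = e * p := by
  refine ⟨(w / p).re, ?_⟩
  have h1 : (w / p).im = 0 := by
    have : cr p w = normSq p * cr 1 (w / p) := by
      rw [← cr_mul, one_mul, div_mul_cancel₀ _ hp]
    rw [this] at h
    have h2 := (mul_eq_zero.1 h).resolve_left (Complex.normSq_pos.2 hp).ne'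
    simpa [cr] using h2
  have h2 : ((w / p).re : ℂ) = w / p := by
    apply Complex.ext
    · simp
    · simp [h1]
  rw [h2, div_mul_cancel₀ _ hp]

omit [Fintype ι] in
theorem sl2_aux {i j k : ι} (hij : i ≠ j) (hik : i ≠ k) (hjk : j ≠ k) (p q p' q' : ℂ)
    (h : cr p q ≠ 0) (h' : cr p' q' = cr p q) (hb : cr p p' ≠ 0) :
    ReflTransGen TStep (K i j k p q) (K i j k p' q') := by
  have hp' : p' ≠ 0 := by rintro rfl; simp [cr] at hb
  set α := cr p' q / cr p q with hα
  set β := cr p p' / cr p q with hβ
  have hβ0 : β ≠ 0 := div_ne_zero hb h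
  have hpp : p' = α * p + β * q := by
    have e := cr_vec p' p q
    have hC : (cr p q : ℂ) ≠ 0 := by exact_mod_cast h
    have e2 : cr p' p = - cr p p' := cr_comm _ _
    rw [e2] at e
    rw [hα, hβ]
    push_cast at e ⊢
    field_simp
    linear_combination e
  set y := q + (((α - 1) / β : ℝ) : ℂ) * p with hy
  have hβC : (β : ℂ) ≠ 0 := by exact_mod_cast hβ0
  have hx : p + β * y = p' := by
    rw [hy, hpp]; push_cast; field_simp; ring
  have s1 := shear1 hij hik hjk p q ((α - 1) / β)
  have s2 := shear2 hij hik hjk p y β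
  rw [hx] at s2
  have hcr : cr p' (q' - y) = 0 := by
    have e1 : cr p' (q' - y) = cr p' q' - cr p' y := by
      simp only [cr, Complex.sub_re, Complex.sub_im]; ring
    have e2 : cr p' y = cr p y := by
      rw [← hx]; simp [cr]; ring
    have e3 : cr p y = cr p q := by
      rw [hy]; simp [cr]; ring
    rw [e1, e2, e3, h', sub_self]
  obtain ⟨e, he⟩ := real_of_cr hp' hcr
  have s3 := shear1 hij hik hjk p' y e
  have : y + e * p' = q' := by rw [← he]; ring
  rw [this] at s3
  exact (s1.trans s2).trans s3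

omit [Fintype ι] in
theorem sl2 {i j k : ι} (hij : i ≠ j) (hik : i ≠ k) (hjk : j ≠ k) (p q p' q' : ℂ)
    (h : cr p q ≠ 0) (h' : cr p' q' = cr p q) :
    ReflTransGen TStep (K i j k p q) (K i j k p' q') := by
  by_cases hb : cr p p' = 0
  · have s := shear2 hij hik hjk p q 1
    have h1 : cr (p + ((1 : ℝ) : ℂ) * q) q = cr p q := by simp [cr]; ring
    refine s.trans (sl2_aux hij hik hjk _ q p' q' (by rw [h1]; exact h) (by rw [h1]; exact h') ?_)
    have h2 : cr (p + ((1 : ℝ) : ℂ) * q) p' = cr p p' + cr q p' := by simp [cr]; ring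
    rw [h2, hb, zero_add]
    intro h3
    have hp' : p' ≠ 0 := by
      rintro rfl
      apply h
      rw [← h']; simp [cr]
    have e := cr_vec p' p q
    have e1 : cr p' q = 0 := by rw [cr_comm, h3, neg_zero]
    have e2 : cr p' p = 0 := by rw [cr_comm, hb, neg_zero]
    rw [e1, e2] at e
    simp only [Complex.ofReal_zero, zero_mul, sub_zero, mul_eq_zero, hp', or_false,
      Complex.ofReal_eq_zero] at e
    exact h e
  · exact sl2_aux hij hik hjk p q p' q' h h' hb

theorem K_fin3 (a : Fin 3 → ℂ) (ha : ∑ l, a l = 0) : K 0 1 2 (a 0) (a 1) = a := by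
  rw [Fin.sum_univ_three] at ha
  funext l
  have h2 : a 2 = -(a 0) - a 1 := by linear_combination ha
  fin_cases l <;> simp [K, upd, h2]

theorem connect3 (a b : Fin 3 → ℂ) (ha : ∑ l, a l = 0) (hb : ∑ l, b l = 0)
    (h : cr (a 0) (a 1) ≠ 0) (h' : cr (b 0) (b 1) = cr (a 0) (a 1)) :
    ReflTransGen NStep a b := by
  rw [← K_fin3 a ha, ← K_fin3 b hb]
  exact reach_of_TStep (sl2 (by decide) (by decide) (by decide) _ _ _ _ h h')

end Pool.Agent.Q236.CentroidMoves
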