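import Mathlib

/-!
Simple polygons, the closed region bounded by them, visibility graphs; `x`-monotone polygons.
-/

set_option autoImplicit false

namespace Pool.Agent.Q236.MonoPoly

open Set Bornology

/-- the edge from a vertex to the next one -/
def edge {n : ℕ} (v : Fin n → ℝ × ℝ) (i : Fin n) : Set (ℝ × ℝ) :=
  segment ℝ (v i) (v (finRotate n i))

/-- A simple polygon. -/
def IsSimple {n : ℕ} (v : Fin n → ℝ × ℝ) : Prop :=
  Function.Injective v ∧ ∀ i j, i ≠ j → ∀ x ∈ edge v i ∩ edge v j,
    (j = finRotate n i ∧ x = v j) ∨ (i = finRotate n j ∧ x = v i)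

/-- the boundary curve -/
def boundary {n : ℕ} (v : Fin n → ℝ × ℝ) : Set (ℝ × ℝ) := ⋃ i, edge v i

/-- The closed region bounded by the polygon: the points which are on the boundary curve or lie in a
bounded component of its complement. -/
def region {n : ℕ} (v : Fin n → ℝ × ℝ) : Set (ℝ × ℝ) :=
  {z | z ∈ boundary v ∨ IsBounded (connectedComponentIn (boundary v)ᶜ z)}

/-- The visibility graph. -/
def visGraph {n : ℕ} (v : Fin n → ℝ × ℝ) : SimpleGraph (Fin n) where
  Adj i j := i ≠ j ∧ segment ℝ (v i) (v j) ⊆ region v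
  symm := ⟨fun i j h => ⟨h.1.symm, by rw [segment_symm]; exact h.2⟩⟩
  loopless := ⟨fun _ h => h.1 rfl⟩

/-- data of a monotone polygon -/
structure Mono where
  p : ℕ
  q : ℕ
  hp : 1 ≤ p
  hq : 1 ≤ q
  hpq : 3 ≤ p + q
  L : ℕ → ℝ × ℝ
  U : ℕ → ℝ × ℝ
  hL : ∀ k < p, (L k).1 < (L (k + 1)).1
  hU : ∀ k < q, (U k).1 < (U (k + 1)).1
  h0 : L 0 = U 0
  h1 : L p = U q
  f : ℝ → ℝ
  g : ℝ → ℝ
  hf : Continuous f
  hg : Continuous g
  hLg : ∀ k < p, ∀ z ∈ segment ℝ (L k) (L (k + 1)), z.2 = g z.1
  hUf : ∀ k < q, ∀ z ∈ segment ℝ (U k) (U (k + 1)), z.2 = f z.1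
  hgf : ∀ x, (L 0).1 < x → x < (L p).1 → g x < f x

variable (D : Mono)

/-- the vertices, with the natural numbers as indices -/
def Mono.vv (k : ℕ) : ℝ × ℝ := if k ≤ D.p then D.L k else D.U (D.p + D.q - k)

/-- the polygon -/
def Mono.v (k : Fin (D.p + D.q)) : ℝ × ℝ := D.vv k

theorem Mono.vv_last : D.vv (D.p + D.q) = D.vv 0 := by
  unfold Mono.vv
  have h1 : ¬ (D.p + D.q ≤ D.p) := by have := D.hq; omega
  rw [if_neg h1, if_pos (Nat.zero_le _), Nat.sub_self]
  exact D.h0.symm

theorem rot_val {n : ℕ} (k : Fin n) :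
    ((finRotate n k : Fin n) : ℕ) = if (k : ℕ) + 1 = n then (0 : ℕ) else (k : ℕ) + 1 := by
  obtain ⟨m, rfl⟩ : ∃ m, n = m + 1 := ⟨n - 1, by have := k.2; omega⟩
  rw [finRotate_apply, Fin.val_add_one]
  by_cases h : k = Fin.last m
  · rw [if_pos h, if_pos (by rw [h]; simp)]
  · rw [if_neg h, if_neg]
    intro h2
    apply h
    ext
    simp
    omega

theorem Mono.v_rot (k : Fin (D.p + D.q)) : D.v (finRotate _ k) = D.vv (k + 1) := by
  unfold Mono.v
  rw [rot_val]
  split_ifs with h
  · rw [h, D.vv_last]
  · rfl

theorem Mono.Lmono {i j : ℕ} (hij : i < j) (hj : j ≤ D.p) : (D.L i).1 < (D.L j).1 := by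
  induction j, hij using Nat.le_induction with
  | base => exact D.hL i (by omega)
  | succ j hij ih => exact (ih (by omega)).trans (D.hL j (by omega))

theorem Mono.Umono {i j : ℕ} (hij : i < j) (hj : j ≤ D.q) : (D.U i).1 < (D.U j).1 := by
  induction j, hij using Nat.le_induction with
  | base => exact D.hU i (by omega)
  | succ j hij ih => exact (ih (by omega)).trans (D.hU j (by omega))

theorem Mono.Lmono' {i j : ℕ} (hij : i ≤ j) (hj : j ≤ D.p) : (D.L i).1 ≤ (D.L j).1 := by
  rcases hij.eq_or_lt with rfl | h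
  · exact le_rfl
  · exact (D.Lmono h hj).le

theorem Mono.Umono' {i j : ℕ} (hij : i ≤ j) (hj : j ≤ D.q) : (D.U i).1 ≤ (D.U j).1 := by
  rcases hij.eq_or_lt with rfl | h
  · exact le_rfl
  · exact (D.Umono h hj).le

theorem Mono.L_on {k : ℕ} (hk : k ≤ D.p) : (D.L k).2 = D.g (D.L k).1 := by
  have := D.hp
  rcases Nat.lt_or_ge k D.p with h | h
  · exact D.hLg k h _ (left_mem_segment ℝ _ _)
  · obtain ⟨m, rfl⟩ : ∃ m, k = m + 1 := ⟨k - 1, by omega⟩
    exact D.hLg m (by omega) _ (right_mem_segment ℝ _ _)

theorem Mono.U_on {k : ℕ} (hk : k ≤ D.q) : (D.U k).2 = D.f (D.U k).1 := by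
  have := D.hq
  rcases Nat.lt_or_ge k D.q with h | h
  · exact D.hUf k h _ (left_mem_segment ℝ _ _)
  · obtain ⟨m, rfl⟩ : ∃ m, k = m + 1 := ⟨k - 1, by omega⟩
    exact D.hUf m (by omega) _ (right_mem_segment ℝ _ _)

theorem Mono.edge_lower (k : Fin (D.p + D.q)) (hk : (k : ℕ) < D.p) :
    edge D.v k = segment ℝ (D.L k) (D.L (k + 1)) := by
  unfold edge
  rw [D.v_rot]
  unfold Mono.v Mono.vv
  rw [if_pos hk.le, if_pos (by omega)]

theorem Mono.edge_upper (k : Fin (D.p + D.q)) (hk : D.p ≤ (k : ℕ)) :
    edge D.v k = segment ℝ (D.U (D.p + D.q - (k + 1))) (D.U (D.p + D.q - (k + 1) + 1)) := by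
  have hk2 := k.2
  unfold edge
  rw [D.v_rot, segment_symm]
  unfold Mono.v Mono.vv
  rw [if_neg (by omega : ¬ ((k : ℕ) + 1 ≤ D.p))]
  have e : D.p + D.q - ((k : ℕ) + 1) + 1 = D.p + D.q - k := by omega
  rw [e]
  split_ifs with h
  · have h2 : (k : ℕ) = D.p := by omega
    rw [h2, D.h1]
    congr 2
    omega
  · rfl

theorem seg_fst {a b z : ℝ × ℝ} (h : a.1 ≤ b.1) (hz : z ∈ segment ℝ a b) :
    a.1 ≤ z.1 ∧ z.1 ≤ b.1 := by
  obtain ⟨s, t, hs, ht, hst, rfl⟩ := hz
  have : s = 1 - t := by linarith
  subst this
  simp only [Prod.fst_add, Prod.smul_fst, smul_eq_mul]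
  constructor <;> nlinarith

theorem seg_eq_left {a b z : ℝ × ℝ} (h : a.1 < b.1) (hz : z ∈ segment ℝ a b) (hz1 : z.1 = a.1) :
    z = a := by
  obtain ⟨s, t, hs, ht, hst, rfl⟩ := hz
  have : s = 1 - t := by linarith
  subst this
  simp only [Prod.fst_add, Prod.smul_fst, smul_eq_mul] at hz1
  have : t * (b.1 - a.1) = 0 := by linarith
  rcases mul_eq_zero.1 this with h1 | h1
  · rw [h1]; simp
  · linarith

theorem seg_eq_right {a b z : ℝ × ℝ} (h : a.1 < b.1) (hz : z ∈ segment ℝ a b) (hz1 : z.1 = b.1) :
    z = b := by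
  obtain ⟨s, t, hs, ht, hst, rfl⟩ := hz
  have : t = 1 - s := by linarith
  subst this
  simp only [Prod.fst_add, Prod.smul_fst, smul_eq_mul] at hz1
  have : s * (b.1 - a.1) = 0 := by linarith
  rcases mul_eq_zero.1 this with h1 | h1
  · rw [h1]; simp
  · linarith

/-- A monotone polygon is simple. -/
theorem Mono.simple : IsSimple D.v := by
  have hp := D.hp
  have hq := D.hq
  have hx0 : (D.L 0).1 = (D.U 0).1 := by rw [D.h0]
  have hx1 : (D.L D.p).1 = (D.U D.q).1 := by rw [D.h1]
  -- a point on both graphs
  have both : ∀ z : ℝ × ℝ, z.2 = D.g z.1 → z.2 = D.f z.1 → (D.L 0).1 ≤ z.1 → z.1 ≤ (D.L D.p).1 →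
      z.1 = (D.L 0).1 ∨ z.1 = (D.L D.p).1 := by
    intro z h1 h2 h3 h4
    by_contra hcon
    push Not at hcon
    have := D.hgf z.1 (lt_of_le_of_ne h3 (Ne.symm hcon.1)) (lt_of_le_of_ne h4 hcon.2)
    linarith
  constructor
  · -- distinct vertices
    have key : ∀ i j : Fin (D.p + D.q), (i : ℕ) < j → D.v i ≠ D.v j := by
      intro i j hij h
      have hi := i.2
      have hj := j.2
      unfold Mono.v Mono.vv at h
      by_cases h1 : (j : ℕ) ≤ D.p
      · rw [if_pos (by omega), if_pos h1] at h
        have := D.Lmono hij h1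
        rw [h] at this
        exact lt_irrefl _ this
      · rw [if_neg h1] at h
        by_cases h2 : (i : ℕ) ≤ D.p
        · rw [if_pos h2] at h
          have e1 : (D.L i).2 = D.g (D.L i).1 := D.L_on h2
          have e2 : (D.L i).2 = D.f (D.L i).1 := by rw [h]; exact D.U_on (by omega)
          have u1 := D.Umono (i := 0) (j := D.p + D.q - j) (by omega) (by omega)
          have u2 := D.Umono (i := D.p + D.q - j) (j := D.q) (by omega) (by omega)
          rw [← h, ← hx0] at u1
          rw [← h, ← hx1] at u2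
          rcases both _ e1 e2 u1.le u2.le with h3 | h3
          · linarith
          · linarith
        · rw [if_neg h2] at h
          have := D.Umono (i := D.p + D.q - j) (j := D.p + D.q - i) (by omega) (by omega)
          rw [h] at this
          exact lt_irrefl _ this
    intro i j h
    by_contra hne
    rcases lt_or_gt_of_ne (fun h => hne (Fin.ext h) : (i : ℕ) ≠ j) with h1 | h1
    · exact key i j h1 h
    · exact key j i h1 h.symm
  · have key : ∀ i j : Fin (D.p + D.q), (i : ℕ) < j → ∀ x ∈ edge D.v i ∩ edge D.v j,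
        (j = finRotate _ i ∧ x = D.v j) ∨ (i = finRotate _ j ∧ x = D.v i) := by
      rintro i j hij x ⟨hxi, hxj⟩
      have hi := i.2
      have hj := j.2
      by_cases h1 : (j : ℕ) < D.p
      · -- both lower
        rw [D.edge_lower j h1] at hxj
        rw [D.edge_lower i (by omega)] at hxi
        have a1 := seg_fst (D.hL i (by omega)).le hxi
        have a2 := seg_fst (D.hL j h1).le hxj
        have a3 := D.Lmono' (i := i + 1) (j := j) (by omega) (by omega)
        have hxe : x.1 = (D.L j).1 := by linarith [a1.2, a2.1]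
        have hx := seg_eq_left (D.hL j h1) hxj hxe
        left
        constructor
        · ext
          rw [rot_val, if_neg (by omega)]
          by_contra hne
          have a4 := D.Lmono (i := i + 1) (j := j) (by omega) (by omega)
          linarith [a1.2, a2.1]
        · rw [hx]
          unfold Mono.v Mono.vv
          rw [if_pos (by omega)]
      · push Not at h1
        rw [D.edge_upper j h1] at hxj
        set b := D.p + D.q - ((j : ℕ) + 1) with hb
        have hbq : b < D.q := by omega
        have a2 := seg_fst (D.hU b hbq).le hxj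
        have f2 := D.hUf b hbq x hxj
        by_cases h2 : (i : ℕ) < D.p
        · -- i lower, j upper
          rw [D.edge_lower i h2] at hxi
          have a1 := seg_fst (D.hL i h2).le hxi
          have g2 := D.hLg i h2 x hxi
          have l0 := D.Lmono' (i := 0) (j := i) (by omega) (by omega)
          have l1 := D.Lmono' (i := i + 1) (j := D.p) (by omega) (by omega)
          rcases both x g2 f2 (by linarith [a1.1]) (by linarith [a1.2]) with h3 | h3
          · -- the first vertex
            have hi0 : (i : ℕ) = 0 := by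
              by_contra hne
              have := D.Lmono (i := 0) (j := i) (by omega) (by omega)
              linarith [a1.1]
            have hb0 : b = 0 := by
              by_contra hne
              have := D.Umono (i := 0) (j := b) (by omega) (by omega)
              linarith [a2.1]
            right
            constructor
            · ext
              rw [rot_val, if_pos (by omega), hi0]
            · have := seg_eq_left (D.hL i h2) hxi (by rw [h3, hi0])
              rw [this]
              unfold Mono.v Mono.vv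
              rw [if_pos (by omega)]
          · have hi0 : (i : ℕ) + 1 = D.p := by
              by_contra hne
              have := D.Lmono (i := i + 1) (j := D.p) (by omega) (by omega)
              linarith [a1.2]
            have hb0 : b + 1 = D.q := by
              by_contra hne
              have := D.Umono (i := b + 1) (j := D.q) (by omega) (by omega)
              linarith [a2.2]
            have hjp : (j : ℕ) = D.p := by omega
            left
            constructor
            · ext
              rw [rot_val, if_neg (by omega)]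
              omega
            · have := seg_eq_right (D.hL i h2) hxi (by rw [h3, hi0])
              rw [this, hi0]
              unfold Mono.v Mono.vv
              rw [if_pos (by omega), hjp]
        · -- both upper
          push Not at h2
          rw [D.edge_upper i h2] at hxi
          set c := D.p + D.q - ((i : ℕ) + 1) with hc
          have hcq : c < D.q := by omega
          have a1 := seg_fst (D.hU c hcq).le hxi
          have a3 := D.Umono' (i := b + 1) (j := c) (by omega) (by omega)
          have hxe : x.1 = (D.U c).1 := by linarith [a1.1, a2.2]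
          have hx := seg_eq_left (D.hU c hcq) hxi hxe
          have hbc : b + 1 = c := by
            by_contra hne
            have := D.Umono (i := b + 1) (j := c) (by omega) (by omega)
            linarith [a1.1, a2.2]
          left
          constructor
          · ext
            rw [rot_val, if_neg (by omega)]
            omega
          · rw [hx]
            unfold Mono.v Mono.vv
            rw [if_neg (by omega)]
            congr 1
            omega
    intro i j hij x hx
    rcases lt_or_gt_of_ne (fun h => hij (Fin.ext h) : (i : ℕ) ≠ j) with h1 | h1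
    · exact key i j h1 x hx
    · rcases key j i h1 x hx.symm with h2 | h2
      · exact Or.inr h2
      · exact Or.inl h2

/-- the region in coordinates -/
def Mono.R : Set (ℝ × ℝ) :=
  {z | (D.L 0).1 ≤ z.1 ∧ z.1 ≤ (D.L D.p).1 ∧ D.g z.1 ≤ z.2 ∧ z.2 ≤ D.f z.1}

theorem find_interval (X : ℕ → ℝ) (m : ℕ) (hm : 1 ≤ m) (x : ℝ) (h0 : X 0 ≤ x) (h1 : x ≤ X m) :
    ∃ k < m, X k ≤ x ∧ x ≤ X (k + 1) := by
  induction m, hm using Nat.le_induction with
  | base => exact ⟨0, by norm_num, h0, h1⟩
  | succ m hm ih =>
    rcases le_total x (X m) with h | h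
    · obtain ⟨k, hk, h2⟩ := ih h
      exact ⟨k, by omega, h2⟩
    · exact ⟨m, by omega, h, h1⟩

theorem mem_seg_of_fst {a b : ℝ × ℝ} (hab : a.1 < b.1) {x : ℝ} (h0 : a.1 ≤ x) (h1 : x ≤ b.1) :
    ∃ z ∈ segment ℝ a b, z.1 = x := by
  have hd : 0 < b.1 - a.1 := by linarith
  refine ⟨((b.1 - x) / (b.1 - a.1)) • a + ((x - a.1) / (b.1 - a.1)) • b,
    ⟨_, _, div_nonneg (by linarith) hd.le, div_nonneg (by linarith) hd.le, ?_, rfl⟩, ?_⟩
  · field_simp; ring
  · simp only [Prod.fst_add, Prod.smul_fst, smul_eq_mul]
    field_simp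
    ring

theorem Mono.mem_boundary_iff (z : ℝ × ℝ) : z ∈ boundary D.v ↔
    (D.L 0).1 ≤ z.1 ∧ z.1 ≤ (D.L D.p).1 ∧ (z.2 = D.g z.1 ∨ z.2 = D.f z.1) := by
  have hp := D.hp
  have hq := D.hq
  have hx0 : (D.L 0).1 = (D.U 0).1 := by rw [D.h0]
  have hx1 : (D.L D.p).1 = (D.U D.q).1 := by rw [D.h1]
  unfold boundary
  rw [mem_iUnion]
  constructor
  · rintro ⟨k, hk⟩
    have hk2 := k.2
    by_cases h : (k : ℕ) < D.p
    · rw [D.edge_lower k h] at hk
      have a1 := seg_fst (D.hL k h).le hk
      have l0 := D.Lmono' (i := 0) (j := k) (by omega) (by omega)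
      have l1 := D.Lmono' (i := k + 1) (j := D.p) (by omega) (by omega)
      exact ⟨by linarith [a1.1], by linarith [a1.2], Or.inl (D.hLg k h z hk)⟩
    · push Not at h
      rw [D.edge_upper k h] at hk
      set b := D.p + D.q - ((k : ℕ) + 1) with hb
      have hbq : b < D.q := by omega
      have a1 := seg_fst (D.hU b hbq).le hk
      have l0 := D.Umono' (i := 0) (j := b) (by omega) (by omega)
      have l1 := D.Umono' (i := b + 1) (j := D.q) (by omega) (by omega)
      exact ⟨by linarith [a1.1], by linarith [a1.2], Or.inr (D.hUf b hbq z hk)⟩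
  · rintro ⟨h1, h2, h3 | h3⟩
    · obtain ⟨k, hk, h4, h5⟩ := find_interval (fun k => (D.L k).1) D.p hp z.1 h1 h2
      obtain ⟨w, hw, hwx⟩ := mem_seg_of_fst (D.hL k hk) h4 h5
      refine ⟨⟨k, by omega⟩, ?_⟩
      rw [D.edge_lower _ hk]
      have : z = w := Prod.ext hwx.symm (by rw [h3, D.hLg k hk w hw, hwx])
      rw [this]; exact hw
    · rw [hx0] at h1
      rw [hx1] at h2
      obtain ⟨k, hk, h4, h5⟩ := find_interval (fun k => (D.U k).1) D.q hq z.1 h1 h2
      obtain ⟨w, hw, hwx⟩ := mem_seg_of_fst (D.hU k hk) h4 h5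
      refine ⟨⟨D.p + D.q - (k + 1), by omega⟩, ?_⟩
      rw [D.edge_upper _ (by simp only; omega)]
      have : z = w := Prod.ext hwx.symm (by rw [h3, D.hUf k hk w hw, hwx])
      rw [this]
      have e : D.p + D.q - (D.p + D.q - (k + 1) + 1) = k := by omega
      simp only [e]
      exact hw

/-- the region bounded by a monotone polygon -/
theorem Mono.region_eq : region D.v = D.R := by
  ext z
  unfold region
  simp only [mem_ofPred_eq]
  constructor
  · intro h
    by_contra hz
    -- a vertical ray or line
    have key : ∀ S : Set (ℝ × ℝ), IsPreconnected S → z ∈ S → S ⊆ (boundary D.v)ᶜ →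
        ¬ IsBounded S → False := by
      intro S hS hzS hSB hSb
      rcases h with h | h
      · exact hSB hzS h
      · exact hSb (h.subset (hS.subset_connectedComponentIn hzS hSB))
    have hunb : ∀ (x : ℝ) (T : Set ℝ), ¬ IsBounded T → ¬ IsBounded ((fun t => (x, t)) '' T) := by
      intro x T hT hb
      apply hT
      have : T ⊆ Prod.snd '' ((fun t => (x, t)) '' T) := by
        intro t ht
        exact ⟨(x, t), ⟨t, ht, rfl⟩, rfl⟩
      exact (hb.image_snd).subset this
    have hpre : ∀ (x : ℝ) (T : Set ℝ), IsPreconnected T → IsPreconnected ((fun t => (x, t)) '' T) :=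
      fun x T hT => hT.image _ (by fun_prop)
    by_cases h1 : (D.L 0).1 ≤ z.1 ∧ z.1 ≤ (D.L D.p).1
    · obtain ⟨h1, h2⟩ := h1
      by_cases h3 : z.2 < D.g z.1
      · refine key ((fun t => (z.1, t)) '' Iic z.2) (hpre _ _ isPreconnected_Iic)
          ⟨z.2, le_refl z.2, rfl⟩ ?_ (hunb _ _ (by
            intro hb
            have := hb.bddBelow
            exact not_bddBelow_Iic _ this))
        rintro _ ⟨t, ht, rfl⟩ hB
        rw [D.mem_boundary_iff] at hB
        obtain ⟨h4, h5, h6⟩ := hB
        simp only at h4 h5 h6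
        have ht' : t ≤ z.2 := ht
        rcases h6 with h6 | h6
        · linarith
        · have hgf : D.g z.1 ≤ D.f z.1 := by
            rcases h1.eq_or_lt with h7 | h7
            · rw [← h7, ← D.L_on (Nat.zero_le _), D.h0, D.U_on (Nat.zero_le _)]
            · rcases h2.eq_or_lt with h8 | h8
              · rw [h8, ← D.L_on le_rfl, D.h1, D.U_on le_rfl]
              · exact (D.hgf _ h7 h8).le
          linarith
      · have h3' : D.f z.1 < z.2 := by
          by_contra h4
          push Not at h3 h4
          exact hz ⟨h1, h2, h3, h4⟩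
        refine key ((fun t => (z.1, t)) '' Ici z.2) (hpre _ _ isPreconnected_Ici)
          ⟨z.2, le_refl z.2, rfl⟩ ?_ (hunb _ _ (by
            intro hb
            have := hb.bddAbove
            exact not_bddAbove_Ici _ this))
        rintro _ ⟨t, ht, rfl⟩ hB
        rw [D.mem_boundary_iff] at hB
        obtain ⟨h4, h5, h6⟩ := hB
        simp only at h4 h5 h6
        have ht' : z.2 ≤ t := ht
        have hgf : D.g z.1 ≤ D.f z.1 := by
          rcases h1.eq_or_lt with h7 | h7
          · rw [← h7, ← D.L_on (Nat.zero_le _), D.h0, D.U_on (Nat.zero_le _)]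
          · rcases h2.eq_or_lt with h8 | h8
            · rw [h8, ← D.L_on le_rfl, D.h1, D.U_on le_rfl]
            · exact (D.hgf _ h7 h8).le
        rcases h6 with h6 | h6
        · linarith
        · linarith
    · refine key ((fun t => (z.1, t)) '' univ) (hpre _ _ isPreconnected_univ)
          ⟨z.2, trivial, rfl⟩ ?_ (hunb _ _ (by
            intro hb
            have := hb.bddAbove
            exact not_bddAbove_univ this))
      rintro _ ⟨t, ht, rfl⟩ hB
      rw [D.mem_boundary_iff] at hB
      exact h1 ⟨hB.1, hB.2.1⟩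
  · rintro ⟨h1, h2, h3, h4⟩
    by_cases hB : z ∈ boundary D.v
    · exact Or.inl hB
    · right
      -- the open region
      set V : Set (ℝ × ℝ) := {z | (D.L 0).1 < z.1 ∧ z.1 < (D.L D.p).1 ∧ D.g z.1 < z.2 ∧
        z.2 < D.f z.1} with hV
      have hVo : IsOpen V := by
        have c1 : Continuous (fun z : ℝ × ℝ => D.g z.1) := D.hg.comp continuous_fst
        have c2 : Continuous (fun z : ℝ × ℝ => D.f z.1) := D.hf.comp continuous_fst
        exact (isOpen_lt continuous_const continuous_fst).inter
          ((isOpen_lt continuous_fst continuous_const).inter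
          ((isOpen_lt c1 continuous_snd).inter (isOpen_lt continuous_snd c2)))
      have hRc : IsClosed D.R := by
        have c1 : Continuous (fun z : ℝ × ℝ => D.g z.1) := D.hg.comp continuous_fst
        have c2 : Continuous (fun z : ℝ × ℝ => D.f z.1) := D.hf.comp continuous_fst
        exact (isClosed_le continuous_const continuous_fst).inter
          ((isClosed_le continuous_fst continuous_const).inter
          ((isClosed_le c1 continuous_snd).inter (isClosed_le continuous_snd c2)))
      have hRV : ∀ z ∈ D.R, z ∉ boundary D.v → z ∈ V := by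
        rintro z ⟨h1, h2, h3, h4⟩ hB
        rw [D.mem_boundary_iff] at hB
        push Not at hB
        obtain ⟨h5, h6⟩ := hB h1 h2
        refine ⟨lt_of_le_of_ne h1 ?_, lt_of_le_of_ne h2 ?_, lt_of_le_of_ne h3 (Ne.symm h5),
          lt_of_le_of_ne h4 h6⟩
        · intro h7
          have e : D.g z.1 = D.f z.1 := by
            rw [← h7, ← D.L_on (Nat.zero_le _), D.h0, D.U_on (Nat.zero_le _)]
          exact h5 (le_antisymm (by rw [e]; exact h4) h3)
        · intro h7
          have e : D.g z.1 = D.f z.1 := by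
            rw [h7, ← D.L_on le_rfl, D.h1, D.U_on le_rfl]
          exact h5 (le_antisymm (by rw [e]; exact h4) h3)
      have hzV : z ∈ V := hRV z ⟨h1, h2, h3, h4⟩ hB
      have hsub : connectedComponentIn (boundary D.v)ᶜ z ⊆ V := by
        have hc : IsPreconnected (connectedComponentIn (boundary D.v)ᶜ z) :=
          isPreconnected_connectedComponentIn
        have hzc : z ∈ connectedComponentIn (boundary D.v)ᶜ z := mem_connectedComponentIn hB
        refine hc.subset_left_of_subset_union hVo hRc.isOpen_compl ?_ ?_ ⟨z, hzc, hzV⟩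
        · rw [disjoint_left]
          rintro w ⟨w1, w2, w3, w4⟩ hw
          exact hw ⟨w1.le, w2.le, w3.le, w4.le⟩
        · intro w hw
          have hwB := connectedComponentIn_subset _ _ hw
          by_cases hwR : w ∈ D.R
          · exact Or.inl (hRV w hwR hwB)
          · exact Or.inr hwR
      refine IsBounded.subset ?_ hsub
      -- V is bounded
      obtain ⟨m, hm⟩ := (isCompact_Icc (a := (D.L 0).1) (b := (D.L D.p).1)).bddBelow_image
        D.hg.continuousOn
      obtain ⟨M, hM⟩ := (isCompact_Icc (a := (D.L 0).1) (b := (D.L D.p).1)).bddAbove_image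
        D.hf.continuousOn
      refine IsBounded.subset ((Metric.isBounded_Icc (D.L 0).1 (D.L D.p).1).prod
        (Metric.isBounded_Icc m M)) ?_
      rintro w ⟨w1, w2, w3, w4⟩
      refine ⟨⟨w1.le, w2.le⟩, ?_, ?_⟩
      · exact (hm ⟨w.1, ⟨w1.le, w2.le⟩, rfl⟩).trans w3.le
      · exact w4.le.trans (hM ⟨w.1, ⟨w1.le, w2.le⟩, rfl⟩)

end Pool.Agent.Q236.MonoPoly
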