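import Mathlib

/-!
Radial rescaling homeomorphisms of a normed space: fixed outside a ball, linear near the centre.
-/

set_option autoImplicit false

namespace Pool.Agent.Q236.Radial

open Set Metric

variable {E : Type*} [NormedAddCommGroup E] [NormedSpace ℝ E]

/-- the scaling factor -/
noncomputable def fac (r a b ρ : ℝ) : ℝ := 1 + (b - a) * max 0 (r - max ρ a) / ((r - a) * max ρ a)

theorem fac_continuous {r a b : ℝ} (ha : 0 < a) (har : a < r) : Continuous (fac r a b) := by
  unfold fac
  have h : ∀ ρ : ℝ, (r - a) * max ρ a ≠ 0 := fun ρ =>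
    mul_ne_zero (by linarith) (lt_of_lt_of_le ha (le_max_right _ _)).ne'
  fun_prop (disch := exact h _)

theorem fac_small {r a b ρ : ℝ} (ha : 0 < a) (har : a < r) (h : ρ ≤ a) : fac r a b ρ = b / a := by
  unfold fac
  rw [max_eq_right h, max_eq_right (by linarith : (0:ℝ) ≤ r - a)]
  have : r - a ≠ 0 := by linarith
  field_simp
  ring

theorem fac_mid {r a b ρ : ℝ} (h1 : a ≤ ρ) (h2 : ρ ≤ r) :
    fac r a b ρ = 1 + (b - a) * (r - ρ) / ((r - a) * ρ) := by
  unfold fac
  rw [max_eq_left h1, max_eq_right (by linarith : (0:ℝ) ≤ r - ρ)]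

theorem fac_large {r a b ρ : ℝ} (har : a < r) (h2 : r ≤ ρ) : fac r a b ρ = 1 := by
  unfold fac
  rw [max_eq_left (by linarith : a ≤ ρ), max_eq_left (by linarith : r - ρ ≤ (0:ℝ))]
  simp

theorem fac_inv {r a b ρ : ℝ} (ha : 0 < a) (har : a < r) (hb : 0 < b) (hbr : b < r) (hρ : 0 ≤ ρ) :
    0 < fac r a b ρ ∧ fac r b a (fac r a b ρ * ρ) * fac r a b ρ = 1 ∧
      fac r a b ρ * ρ ≤ max ρ r := by
  rcases le_total ρ a with h | h
  · rw [fac_small ha har h]
    have h1 : b / a * ρ ≤ b := by
      rw [div_mul_eq_mul_div, div_le_iff₀ ha]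
      nlinarith
    rw [fac_small hb hbr h1]
    refine ⟨by positivity, by field_simp, ?_⟩
    exact le_trans (by linarith) (le_max_right _ _)
  · rcases le_total ρ r with h' | h'
    · have hρ0 : 0 < ρ := by linarith
      have hra : 0 < r - a := by linarith
      have hrb : 0 < r - b := by linarith
      have e1 : fac r a b ρ * ρ = ρ + (b - a) * (r - ρ) / (r - a) := by
        rw [fac_mid h h']
        field_simp
      have e2 : ρ + (b - a) * (r - ρ) / (r - a) = b + (ρ - a) * (r - b) / (r - a) := by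
        field_simp
        ring
      have e3 : ρ + (b - a) * (r - ρ) / (r - a) = r - (r - ρ) * (r - b) / (r - a) := by
        field_simp
        ring
      have h3 : b ≤ fac r a b ρ * ρ := by
        rw [e1, e2]
        have : 0 ≤ (ρ - a) * (r - b) / (r - a) := by
          apply div_nonneg _ hra.le
          exact mul_nonneg (by linarith) hrb.le
        linarith
      have h4 : fac r a b ρ * ρ ≤ r := by
        rw [e1, e3]
        have : 0 ≤ (r - ρ) * (r - b) / (r - a) := by
          apply div_nonneg _ hra.le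
          exact mul_nonneg (by linarith) hrb.le
        linarith
      have hpos : 0 < fac r a b ρ := by
        have : 0 < fac r a b ρ * ρ := by linarith
        exact (pos_iff_pos_of_mul_pos this).mpr hρ0
      refine ⟨hpos, ?_, h4.trans (le_max_right _ _)⟩
      rw [fac_mid h3 h4]
      have h5 : 0 < fac r a b ρ * ρ := by linarith
      have e4 : r - fac r a b ρ * ρ = (r - ρ) * (r - b) / (r - a) := by
        rw [e1, e3]; ring
      rw [e4]
      have e5 : fac r a b ρ = (ρ + (b - a) * (r - ρ) / (r - a)) / ρ := by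
        rw [← e1]; field_simp
      have hne : fac r a b ρ ≠ 0 := hpos.ne'
      have e6 : (a - b) * ((r - ρ) * (r - b) / (r - a)) / ((r - b) * (fac r a b ρ * ρ)) =
          (a - b) * (r - ρ) / ((r - a) * (fac r a b ρ * ρ)) := by
        field_simp
      rw [e6]
      have e7 : (1 + (a - b) * (r - ρ) / ((r - a) * (fac r a b ρ * ρ))) * fac r a b ρ =
          fac r a b ρ + (a - b) * (r - ρ) / ((r - a) * ρ) := by
        field_simp
      rw [e7, fac_mid h h']
      field_simp
      ring
    · rw [fac_large har h', one_mul, fac_large hbr h']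
      exact ⟨one_pos, by norm_num, le_max_left _ _⟩

/-- the radial homeomorphism of a normed space -/
noncomputable def radial (E : Type*) [NormedAddCommGroup E] [NormedSpace ℝ E] {r a b : ℝ}
    (ha : 0 < a) (har : a < r) (hb : 0 < b) (hbr : b < r) : E ≃ₜ E where
  toFun p := fac r a b ‖p‖ • p
  invFun p := fac r b a ‖p‖ • p
  left_inv p := by
    obtain ⟨h1, h2, -⟩ := fac_inv (ρ := ‖p‖) ha har hb hbr (norm_nonneg _)
    show fac r b a ‖fac r a b ‖p‖ • p‖ • fac r a b ‖p‖ • p = p
    rw [norm_smul, Real.norm_of_nonneg h1.le, smul_smul, h2, one_smul]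
  right_inv p := by
    obtain ⟨h1, h2, -⟩ := fac_inv (ρ := ‖p‖) hb hbr ha har (norm_nonneg _)
    show fac r a b ‖fac r b a ‖p‖ • p‖ • fac r b a ‖p‖ • p = p
    rw [norm_smul, Real.norm_of_nonneg h1.le, smul_smul, h2, one_smul]
  continuous_toFun := ((fac_continuous ha har).comp continuous_norm).smul continuous_id
  continuous_invFun := ((fac_continuous hb hbr).comp continuous_norm).smul continuous_id

theorem radial_apply {r a b : ℝ} (ha : 0 < a) (har : a < r) (hb : 0 < b) (hbr : b < r) (p : E) :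
    radial E ha har hb hbr p = fac r a b ‖p‖ • p := rfl

theorem radial_symm {r a b : ℝ} (ha : 0 < a) (har : a < r) (hb : 0 < b) (hbr : b < r) :
    (radial E ha har hb hbr).symm = radial E hb hbr ha har := by
  ext p; rfl

/-- the radial homeomorphism centred at `x` -/
noncomputable def rad (x : E) {r a b : ℝ} (ha : 0 < a) (har : a < r) (hb : 0 < b) (hbr : b < r) :
    E ≃ₜ E :=
  (Homeomorph.addRight (-x)).trans ((radial E ha har hb hbr).trans (Homeomorph.addRight x))

theorem rad_apply (x : E) {r a b : ℝ} (ha : 0 < a) (har : a < r) (hb : 0 < b) (hbr : b < r)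
    (p : E) : rad x ha har hb hbr p = x + fac r a b ‖p - x‖ • (p - x) := by
  show fac r a b ‖p + -x‖ • (p + -x) + x = _
  rw [← sub_eq_add_neg, add_comm]

theorem rad_symm_apply (x : E) {r a b : ℝ} (ha : 0 < a) (har : a < r) (hb : 0 < b) (hbr : b < r)
    (p : E) : (rad x ha har hb hbr).symm p = rad x hb hbr ha har p := by
  rw [Homeomorph.symm_apply_eq, rad_apply, rad_apply]
  obtain ⟨h1, h2, -⟩ := fac_inv (ρ := ‖p - x‖) hb hbr ha har (norm_nonneg _)
  rw [add_sub_cancel_left, norm_smul, Real.norm_of_nonneg h1.le, smul_smul, h2, one_smul]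
  abel

theorem rad_fix (x : E) {r a b : ℝ} (ha : 0 < a) (har : a < r) (hb : 0 < b) (hbr : b < r)
    {p : E} (h : p ∉ ball x r) : rad x ha har hb hbr p = p := by
  rw [rad_apply, fac_large har, one_smul]
  · abel
  · rw [mem_ball, dist_eq_norm] at h
    linarith

theorem rad_center (x : E) {r a b : ℝ} (ha : 0 < a) (har : a < r) (hb : 0 < b) (hbr : b < r) :
    rad x ha har hb hbr x = x := by
  rw [rad_apply]; simp

theorem rad_image_fix (x : E) {r a b : ℝ} (ha : 0 < a) (har : a < r) (hb : 0 < b) (hbr : b < r)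
    {S : Set E} (h : Disjoint S (ball x r)) : rad x ha har hb hbr '' S = S := by
  have : ∀ p ∈ S, rad x ha har hb hbr p = p := fun p hp =>
    rad_fix x ha har hb hbr (disjoint_left.1 h hp)
  rw [image_congr this, image_id']

theorem rad_maps_segment (x w : E) {r a b : ℝ} (ha : 0 < a) (har : a < r) (hb : 0 < b)
    (hbr : b < r) (hw : r ≤ ‖w - x‖) :
    MapsTo (rad x ha har hb hbr) (segment ℝ x w) (segment ℝ x w) := by
  rintro p hp
  rw [segment_eq_image'] at hp ⊢
  obtain ⟨t, ⟨ht0, ht1⟩, rfl⟩ := hp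
  have hN : 0 < ‖w - x‖ := by linarith
  set φ := fac r a b ‖x + t • (w - x) - x‖ with hφ
  have e1 : ‖x + t • (w - x) - x‖ = t * ‖w - x‖ := by
    rw [add_sub_cancel_left, norm_smul, Real.norm_of_nonneg ht0]
  obtain ⟨h1, -, h3⟩ := fac_inv (ρ := ‖x + t • (w - x) - x‖) ha har hb hbr (norm_nonneg _)
  rw [← hφ] at h1 h3
  rw [e1] at h3
  refine ⟨φ * t, ⟨by positivity, ?_⟩, ?_⟩
  · have h4 : φ * (t * ‖w - x‖) ≤ ‖w - x‖ := by
      refine h3.trans (max_le ?_ hw)
      nlinarith
    have h5 : φ * t * ‖w - x‖ ≤ 1 * ‖w - x‖ := by linarith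
    exact le_of_mul_le_mul_right h5 hN
  · rw [rad_apply, ← hφ, add_sub_cancel_left, smul_smul]

theorem rad_image_segment (x w : E) {r a b : ℝ} (ha : 0 < a) (har : a < r) (hb : 0 < b)
    (hbr : b < r) (hw : r ≤ ‖w - x‖) :
    rad x ha har hb hbr '' (segment ℝ x w) = segment ℝ x w := by
  apply subset_antisymm
  · exact (rad_maps_segment x w ha har hb hbr hw).image_subset
  · intro p hp
    refine ⟨rad x hb hbr ha har p, rad_maps_segment x w hb hbr ha har hw hp, ?_⟩
    rw [← rad_symm_apply x ha har hb hbr, Homeomorph.apply_symm_apply]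

/-- near the centre the map is a homothety -/
theorem rad_small (x : E) {r a b : ℝ} (ha : 0 < a) (har : a < r) (hb : 0 < b) (hbr : b < r)
    {p : E} (h : ‖p - x‖ ≤ a) : rad x ha har hb hbr p = x + (b / a) • (p - x) := by
  rw [rad_apply, fac_small ha har h]

theorem rad_pendant (x v : E) {r ε₁ ε₂ : ℝ} (h1 : 0 < ε₁) (h2 : 0 < ε₂) (hv : 0 < ‖v‖)
    (h1r : ε₁ * ‖v‖ < r) (h2r : ε₂ * ‖v‖ < r) :
    rad x (mul_pos h1 hv) h1r (mul_pos h2 hv) h2r (x + ε₁ • v) = x + ε₂ • v ∧
    rad x (mul_pos h1 hv) h1r (mul_pos h2 hv) h2r '' (segment ℝ x (x + ε₁ • v)) =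
      segment ℝ x (x + ε₂ • v) := by
  have key : ∀ t : ℝ, 0 ≤ t → t ≤ 1 →
      rad x (mul_pos h1 hv) h1r (mul_pos h2 hv) h2r (x + t • (ε₁ • v)) = x + t • (ε₂ • v) := by
    intro t ht0 ht1
    rw [rad_small]
    · rw [add_sub_cancel_left, smul_smul, smul_smul, smul_smul]
      congr 2
      field_simp
    · rw [add_sub_cancel_left, norm_smul, norm_smul, Real.norm_of_nonneg ht0,
        Real.norm_of_nonneg h1.le]
      have : 0 ≤ ε₁ * ‖v‖ := by positivity
      nlinarith
  constructor
  · have := key 1 zero_le_one le_rfl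
    rwa [one_smul, one_smul] at this
  · rw [segment_eq_image', segment_eq_image', image_image]
    simp only [add_sub_cancel_left]
    apply image_congr
    rintro t ⟨ht0, ht1⟩
    exact key t ht0 ht1

end Pool.Agent.Q236.Radial
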