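import Mathlib
import Pool.Agent.Q236.Radial
import Pool.Agent.Helper337.PolygonProofC

/-!
For an ordinary proper polygon, the planar map with short pendants of length parameter `ε₁` is
carried to the one with parameter `ε₂` by a homeomorphism of the plane.
-/

set_option autoImplicit false

namespace Pool.Agent.Q236.PendantHomeo

open Set Metric Pool.Agent.Helper337.PolygonPattern Pool.Agent.Q236.Radial

/-- the pendant direction -/
noncomputable def dir (x : ZMod 14 → Plane) (i : ZMod 14) : Plane :=
  (2 : ℝ) • x i - x (i - 1) - x (i + 1)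

theorem dir_ne {x : ZMod 14 → Plane} (hp : Proper x) (i : ZMod 14) : 0 < ‖dir x i‖ := by
  rw [norm_pos_iff]
  intro h
  apply hp i
  rw [collinear_iff_of_mem (p₀ := x i) (by simp)]
  refine ⟨x (i + 1) - x i, ?_⟩
  intro p hp
  simp only [mem_insert_iff, mem_singleton_iff] at hp
  rcases hp with rfl | rfl | rfl
  · refine ⟨-1, ?_⟩
    unfold dir at h
    rw [vadd_eq_add, neg_one_smul]
    have : x (i - 1) = (2 : ℝ) • x i - x (i + 1) := by
      rw [sub_sub, sub_eq_zero] at h
      rw [h]; abel
    rw [this, two_smul]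
    abel
  · exact ⟨0, by simp⟩
  · exact ⟨1, by simp⟩

theorem succ_ne (i : ZMod 14) : i ≠ i + 1 := by revert i; decide +kernel
theorem pred_ne (i : ZMod 14) : i - 1 ≠ i := by revert i; decide +kernel

theorem vertex_not_mem {x : ZMod 14 → Plane} (ho : Ordinary x) {i j : ZMod 14} (h1 : j ≠ i)
    (h2 : j + 1 ≠ i) : x i ∉ edge x j := by
  intro h
  have h3 : j ≠ i - 1 := by
    rintro rfl
    exact h2 (by ring)
  refine ho (x i) (i - 1) i j (pred_ne i) (Ne.symm h1) (Ne.symm h3) ⟨?_, ?_, h⟩
  · unfold edge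
    rw [sub_add_cancel]
    exact right_mem_segment ℝ _ _
  · exact left_mem_segment ℝ _ _

theorem isClosed_edge (x : ZMod 14 → Plane) (j : ZMod 14) : IsClosed (edge x j) := by
  unfold edge
  have h : IsCompact (convexHull ℝ ({x j, x (j + 1)} : Set Plane)) :=
    (Set.toFinite _).isCompact_convexHull ℝ
  rw [convexHull_pair] at h
  exact h.isClosed

theorem vertex_inj {x : ZMod 14 → Plane} (ho : Ordinary x) (hp : Proper x) {i j : ZMod 14}
    (h : i ≠ j) : x i ≠ x j := by
  intro he
  by_cases h1 : j = i + 1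
  · subst h1
    apply hp i
    have : ({x (i - 1), x i, x (i + 1)} : Set Plane) = {x (i - 1), x i} := by
      rw [← he]; simp
    rw [this]
    exact collinear_pair ℝ _ _
  by_cases h2 : i = j + 1
  · subst h2
    apply hp j
    have : ({x (j - 1), x j, x (j + 1)} : Set Plane) = {x (j - 1), x j} := by
      rw [he]; simp
    rw [this]
    exact collinear_pair ℝ _ _
  · exact vertex_not_mem ho (i := j) (j := i) h (fun h' => h1 h'.symm)
      (by rw [← he]; exact left_mem_segment ℝ _ _)

/-- a radius that separates everything -/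
theorem exists_radius {x : ZMod 14 → Plane} (ho : Ordinary x) (hp : Proper x) :
    ∃ r : ℝ, 0 < r ∧ (∀ i j, j ≠ i → j + 1 ≠ i → Disjoint (edge x j) (ball (x i) r)) ∧
      (∀ i j, i ≠ j → 2 * r ≤ dist (x i) (x j)) := by
  have h1 : ∀ i j : ZMod 14, ∃ r : ℝ, 0 < r ∧
      (j ≠ i → j + 1 ≠ i → Disjoint (edge x j) (ball (x i) r)) ∧
      (i ≠ j → 2 * r ≤ dist (x i) (x j)) := by
    intro i j
    by_cases hij : i = j
    · exact ⟨1, one_pos, fun h => absurd hij.symm h, fun h => absurd hij h⟩
    have hd : 0 < dist (x i) (x j) := dist_pos.2 (vertex_inj ho hp hij)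
    by_cases h2 : j + 1 = i
    · exact ⟨dist (x i) (x j) / 2, by positivity, fun _ h => absurd h2 h, fun _ => by linarith⟩
    · have hm : x i ∉ edge x j := vertex_not_mem ho (Ne.symm hij) h2
      have ho' : IsOpen (edge x j)ᶜ := (isClosed_edge x j).isOpen_compl
      obtain ⟨s, hs, hs'⟩ := Metric.isOpen_iff.1 ho' (x i) hm
      refine ⟨min s (dist (x i) (x j) / 2), lt_min hs (by positivity), fun _ _ => ?_, fun _ => ?_⟩
      · rw [disjoint_left]
        intro p hp1 hp2
        exact hs' (ball_subset_ball (min_le_left _ _) hp2) hp1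
      · have := min_le_right s (dist (x i) (x j) / 2)
        linarith
  choose r hr using h1
  have hne : (Finset.univ : Finset (ZMod 14 × ZMod 14)).Nonempty := Finset.univ_nonempty
  refine ⟨Finset.univ.inf' hne (fun q => r q.1 q.2), ?_, ?_, ?_⟩
  · rw [Finset.lt_inf'_iff]
    exact fun q _ => (hr q.1 q.2).1
  · intro i j h2 h3
    have hle : Finset.univ.inf' hne (fun q => r q.1 q.2) ≤ r i j :=
      Finset.inf'_le (fun q : ZMod 14 × ZMod 14 => r q.1 q.2) (Finset.mem_univ (i, j))
    exact ((hr i j).2.1 h2 h3).mono_right (ball_subset_ball hle)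
  · intro i j h2
    have hle : Finset.univ.inf' hne (fun q => r q.1 q.2) ≤ r i j :=
      Finset.inf'_le (fun q : ZMod 14 × ZMod 14 => r q.1 q.2) (Finset.mem_univ (i, j))
    have := (hr i j).2.2 h2
    linarith

theorem rad_edge {x : ZMod 14 → Plane} {r : ℝ}
    (h1 : ∀ i j, j ≠ i → j + 1 ≠ i → Disjoint (edge x j) (ball (x i) r))
    (h2 : ∀ i j, i ≠ j → 2 * r ≤ dist (x i) (x j)) (hr : 0 < r) (i j : ZMod 14) {a b : ℝ}
    (ha : 0 < a) (har : a < r) (hb : 0 < b) (hbr : b < r) :
    rad (x i) ha har hb hbr '' (edge x j) = edge x j := by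
  by_cases hji : j = i
  · subst hji
    unfold edge
    apply rad_image_segment
    have := h2 (j + 1) j (Ne.symm (succ_ne j))
    rw [dist_eq_norm] at this
    linarith
  by_cases hj : j + 1 = i
  · subst hj
    unfold edge
    rw [segment_symm]
    apply rad_image_segment
    have := h2 j (j + 1) (succ_ne j)
    rw [dist_eq_norm] at this
    linarith
  · exact rad_image_fix _ ha har hb hbr (h1 i j hji hj)

theorem rad_vertex {x : ZMod 14 → Plane} {r : ℝ}
    (h2 : ∀ i j, i ≠ j → 2 * r ≤ dist (x i) (x j)) (hr : 0 < r) (i j : ZMod 14) {a b : ℝ}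
    (ha : 0 < a) (har : a < r) (hb : 0 < b) (hbr : b < r) :
    rad (x i) ha har hb hbr (x j) = x j := by
  by_cases hij : i = j
  · subst hij; exact rad_center _ ha har hb hbr
  · apply rad_fix
    rw [mem_ball]
    have := h2 j i (Ne.symm hij)
    linarith

theorem trans_image (h g : Plane ≃ₜ Plane) (S : Set Plane) : (h.trans g) '' S = g '' (h '' S) := by
  rw [image_image]; rfl

theorem main {x : ZMod 14 → Plane} (ho : Ordinary x) (hp : Proper x) :
    ∃ δ : ℝ, 0 < δ ∧ ∀ ε₁ ε₂ : ℝ, 0 < ε₁ → ε₁ < δ → 0 < ε₂ → ε₂ < δ →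
      ∃ h : Plane ≃ₜ Plane, (∀ j, h '' edge x j = edge x j) ∧ (∀ j, h (x j) = x j) ∧
        (∀ j, h (x j + ε₁ • dir x j) = x j + ε₂ • dir x j) ∧
        (∀ j, h '' segment ℝ (x j) (x j + ε₁ • dir x j) =
          segment ℝ (x j) (x j + ε₂ • dir x j)) := by
  obtain ⟨r, hr, h1, h2⟩ := exists_radius ho hp
  have hne : (Finset.univ : Finset (ZMod 14)).Nonempty := Finset.univ_nonempty
  set M := Finset.univ.sup' hne (fun i => ‖dir x i‖) with hM
  have hMi : ∀ i, ‖dir x i‖ ≤ M := fun i =>
    Finset.le_sup' (fun i => ‖dir x i‖) (Finset.mem_univ i)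
  have hM0 : 0 < M := lt_of_lt_of_le (dir_ne hp 0) (hMi 0)
  refine ⟨r / M, by positivity, ?_⟩
  intro ε₁ ε₂ e1 e1' e2 e2'
  rw [lt_div_iff₀ hM0] at e1' e2'
  have b1 : ∀ i, ε₁ * ‖dir x i‖ < r := fun i =>
    lt_of_le_of_lt (mul_le_mul_of_nonneg_left (hMi i) e1.le) e1'
  have b2 : ∀ i, ε₂ * ‖dir x i‖ < r := fun i =>
    lt_of_le_of_lt (mul_le_mul_of_nonneg_left (hMi i) e2.le) e2'
  have step : ∀ T : Finset (ZMod 14), ∃ h : Plane ≃ₜ Plane, (∀ j, h '' edge x j = edge x j) ∧
      (∀ j, h (x j) = x j) ∧
        (∀ j, h (x j + ε₁ • dir x j) = x j + (if j ∈ T then ε₂ else ε₁) • dir x j) ∧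
        (∀ j, h '' segment ℝ (x j) (x j + ε₁ • dir x j) =
          segment ℝ (x j) (x j + (if j ∈ T then ε₂ else ε₁) • dir x j)) := by
    intro T
    induction T using Finset.induction_on with
    | empty =>
      refine ⟨Homeomorph.refl _, fun j => ?_, fun j => rfl, fun j => ?_, fun j => ?_⟩
      · simp
      · simp
      · simp
    | insert i T hi ih =>
      obtain ⟨h, q1, q2, q3, q4⟩ := ih
      have hv := dir_ne hp i
      obtain ⟨p1, p2⟩ := rad_pendant (x i) (dir x i) e1 e2 hv (b1 i) (b2 i)
      refine ⟨h.trans (rad (x i) (mul_pos e1 hv) (b1 i) (mul_pos e2 hv) (b2 i)),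
        fun j => ?_, fun j => ?_, fun j => ?_, fun j => ?_⟩
      · rw [trans_image, q1, rad_edge h1 h2 hr]
      · rw [Homeomorph.trans_apply, q2, rad_vertex h2 hr]
      · rw [Homeomorph.trans_apply, q3]
        by_cases hji : j = i
        · subst hji
          rw [if_neg hi, if_pos (Finset.mem_insert_self _ _), p1]
        · have e : (j ∈ insert i T) ↔ j ∈ T := by simp [hji]
          simp only [e]
          apply rad_fix
          rw [mem_ball]
          have d1 := h2 j i hji
          have d2 : dist (x j) (x j + (if j ∈ T then ε₂ else ε₁) • dir x j) < r := by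
            rw [dist_eq_norm, sub_add_cancel_left, norm_neg, norm_smul]
            split_ifs
            · rw [Real.norm_of_nonneg e2.le]; exact b2 j
            · rw [Real.norm_of_nonneg e1.le]; exact b1 j
          have d3 := dist_triangle (x j) (x j + (if j ∈ T then ε₂ else ε₁) • dir x j) (x i)
          linarith
      · rw [trans_image, q4]
        by_cases hji : j = i
        · subst hji
          rw [if_neg hi, if_pos (Finset.mem_insert_self _ _), p2]
        · have e : (j ∈ insert i T) ↔ j ∈ T := by simp [hji]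
          simp only [e]
          apply rad_image_fix
          rw [disjoint_left]
          intro p hp1 hp2
          have d1 := h2 j i hji
          have d2 : dist (x j) (x j + (if j ∈ T then ε₂ else ε₁) • dir x j) < r := by
            rw [dist_eq_norm, sub_add_cancel_left, norm_neg, norm_smul]
            split_ifs
            · rw [Real.norm_of_nonneg e2.le]; exact b2 j
            · rw [Real.norm_of_nonneg e1.le]; exact b1 j
          have d4 : p ∈ ball (x j) r := by
            have hc := convex_ball (x j) r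
            exact hc.segment_subset (mem_ball_self hr) (by rw [mem_ball, dist_comm]; exact d2) hp1
          rw [mem_ball] at d4 hp2
          have d3 := dist_triangle_left (x j) (x i) p
          linarith
  obtain ⟨h, q1, q2, q3, q4⟩ := step Finset.univ
  refine ⟨h, q1, q2, fun j => ?_, fun j => ?_⟩
  · simpa using q3 j
  · simpa using q4 j

end Pool.Agent.Q236.PendantHomeo
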