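import Mathlib
import Pool.Agent.Q236.PendantHomeo
import Pool.Agent.Helper337.PolygonProofC

/-!
The two 14-gons have the same pattern (with pendants of independent lengths).
-/

set_option autoImplicit false

namespace Pool.Agent.Q236.Pattern14

open Set Pool.Agent.Helper337.PolygonPattern Pool.Agent.Q236.PendantHomeo

/-- the successor of a label -/
def up (i : Fin 14) : Fin 14 := (show ZMod 14 from i) + (1 : ZMod 14)

/-- the predecessor of a label -/
def dn (i : Fin 14) : Fin 14 := (show ZMod 14 from i) - (1 : ZMod 14)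

theorem rot_eq (i : Fin 14) : finRotate 14 i = up i := by
  rw [finRotate_apply]
  rfl

theorem rots_eq (i : Fin 14) : (finRotate 14).symm i = dn i := by
  rw [Equiv.symm_apply_eq, rot_eq]
  show i = ((show ZMod 14 from i) - 1 + 1 : ZMod 14)
  rw [sub_add_cancel]

/-- the frozen edge -/
abbrev FEdge (x : Fin 14 → ℝ × ℝ) (i : Fin 14) : Set (ℝ × ℝ) :=
  segment ℝ (x i) (x (finRotate 14 i))

theorem edge_eq (x : Fin 14 → ℝ × ℝ) (i : Fin 14) : FEdge x i = edge (n := 14) x i := by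
  unfold FEdge
  rw [rot_eq]
  rfl

theorem mem_edge (x : Fin 14 → ℝ × ℝ) (i : Fin 14) (p : ℝ × ℝ) :
    p ∈ FEdge x i ↔ p ∈ edge (n := 14) x i := by rw [edge_eq]

/-- the frozen pendant end -/
noncomputable abbrev FPend (x : Fin 14 → ℝ × ℝ) (ε : ℝ) (i : Fin 14) : ℝ × ℝ :=
  x i + ε • ((2:ℝ) • x i - x ((finRotate 14).symm i) - x (finRotate 14 i))

theorem pend_eq (x : Fin 14 → ℝ × ℝ) (ε : ℝ) (i : Fin 14) :
    FPend x ε i = x i + ε • dir x i := by
  unfold FPend
  rw [rot_eq, rots_eq]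
  rfl

theorem ordinary_iff (x : Fin 14 → ℝ × ℝ) :
    (∀ (p : ℝ × ℝ) (i j k : Fin 14), p ∈ FEdge x i → p ∈ FEdge x j → p ∈ FEdge x k →
      i = j ∨ j = k ∨ i = k) ↔ Ordinary (n := 14) x := by
  constructor
  · rintro h p i j k h1 h2 h3 ⟨h4, h5, h6⟩
    have := h p i j k ((mem_edge x i p).2 h4) ((mem_edge x j p).2 h5) ((mem_edge x k p).2 h6)
    tauto
  · intro h p i j k h1 h2 h3
    by_contra hc
    push Not at hc
    rw [edge_eq] at h1 h2 h3
    exact h p i j k hc.1 hc.2.1 hc.2.2 ⟨h1, h2, h3⟩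

theorem proper_of (x : Fin 14 → ℝ × ℝ) (h : Proper (n := 14) x) :
    (∀ i, x i ≠ x (finRotate 14 i)) ∧
      ∀ i, ¬ Collinear ℝ ({x ((finRotate 14).symm i), x i, x (finRotate 14 i)} : Set (ℝ × ℝ)) := by
  constructor
  · intro i hi
    apply h i
    rw [rot_eq] at hi
    have : ({x (dn i), x i, x (up i)} : Set (ℝ × ℝ)) = {x (dn i), x i} := by
      rw [← hi]; simp
    change Collinear ℝ ({x (dn i), x i, x (up i)} : Set (ℝ × ℝ))
    rw [this]
    exact collinear_pair ℝ _ _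
  · intro i
    rw [rot_eq, rots_eq]
    exact h i

theorem parallel_iff (x z : Fin 14 → ℝ × ℝ) :
    (∀ i, ∃ c : ℝ, 0 < c ∧ z (finRotate 14 i) - z i = c • (x (finRotate 14 i) - x i)) ↔
      ParallelEdges (n := 14) x z := by
  constructor
  · intro h
    simp only [rot_eq] at h
    exact h
  · intro h i
    rw [rot_eq]
    exact h i

theorem relabelling_of (σ : Equiv.Perm (Fin 14))
    (h : (∀ i, σ (finRotate 14 i) = finRotate 14 (σ i)) ∨
      (∀ i, σ (finRotate 14 i) = (finRotate 14).symm (σ i))) :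
    IsRelabelling (n := 14) (σ : Fin 14 → Fin 14) := by
  have hz : ∀ τ : ZMod 14 → ZMod 14, (∀ i, τ (i + 1) = τ i + 1) ∨ (∀ i, τ (i + 1) = τ i - 1) →
      IsRelabelling τ := by
    intro τ h
    refine ⟨τ 0, ?_⟩
    rcases h with h | h
    · left
      have key : ∀ k : ℕ, τ (k : ZMod 14) = τ 0 + k := by
        intro k
        induction k with
        | zero => simp
        | succ k ih => push_cast; rw [h, ih]; ring
      intro i
      have := key i.val
      rw [ZMod.natCast_zmod_val] at this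
      exact this
    · right
      have key : ∀ k : ℕ, τ (k : ZMod 14) = τ 0 - k := by
        intro k
        induction k with
        | zero => simp
        | succ k ih => push_cast; rw [h, ih]; ring
      intro i
      have := key i.val
      rw [ZMod.natCast_zmod_val] at this
      exact this
  apply hz (σ : Fin 14 → Fin 14)
  rcases h with h | h
  · left
    simp only [rot_eq] at h
    exact h
  · right
    simp only [rot_eq, rots_eq] at h
    exact h

/-- the frozen map set -/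
noncomputable abbrev FMap (x : Fin 14 → ℝ × ℝ) (ε : ℝ) : Set (ℝ × ℝ) :=
  (⋃ i, FEdge x i) ∪ ⋃ i, segment ℝ (x i) (FPend x ε i)

/-- the frozen nodes -/
noncomputable abbrev FNodes (x : Fin 14 → ℝ × ℝ) (ε : ℝ) : Set (ℝ × ℝ) :=
  Set.range x ∪ {p : ℝ × ℝ | ∃ i j, i ≠ j ∧ p ∈ FEdge x i ∧ p ∈ FEdge x j}
      ∪ Set.range (FPend x ε)

theorem map_self (x : Fin 14 → ℝ × ℝ) {ε₁ ε₂ : ℝ} (h : Plane ≃ₜ Plane)
    (h1 : ∀ j, h '' edge (n := 14) x j = edge (n := 14) x j)
    (h4 : ∀ j, h '' segment ℝ (x j) (x j + ε₁ • dir x j) =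
          segment ℝ (x j) (x j + ε₂ • dir x j)) : h '' FMap x ε₁ = FMap x ε₂ := by
  unfold FMap
  rw [image_union, image_iUnion, image_iUnion]
  congr 1
  · refine iUnion_congr fun i => ?_
    rw [edge_eq]
    exact h1 i
  · refine iUnion_congr fun i => ?_
    rw [pend_eq, pend_eq]
    exact h4 i

theorem nodes_self (x : Fin 14 → ℝ × ℝ) {ε₁ ε₂ : ℝ} (h : Plane ≃ₜ Plane)
    (h1 : ∀ j, h '' edge (n := 14) x j = edge (n := 14) x j) (h2 : ∀ j, h (x j) = x j)
    (h3 : ∀ j, h (x j + ε₁ • dir x j) = x j + ε₂ • dir x j) :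
    h '' FNodes x ε₁ = FNodes x ε₂ := by
  unfold FNodes
  rw [image_union, image_union]
  congr 1
  · congr 1
    · rw [← range_comp]
      congr 1
      funext i
      exact h2 i
    · ext p
      constructor
      · rintro ⟨q, ⟨i, j, hij, hi, hj⟩, rfl⟩
        rw [edge_eq] at hi hj
        refine ⟨i, j, hij, ?_, ?_⟩
        · rw [edge_eq]; exact (h1 i).subset (mem_image_of_mem _ hi)
        · rw [edge_eq]; exact (h1 j).subset (mem_image_of_mem _ hj)
      · rintro ⟨i, j, hij, hi, hj⟩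
        rw [edge_eq] at hi hj
        obtain ⟨q, hq, rfl⟩ := (h1 i).superset hi
        refine ⟨q, ⟨i, j, hij, ?_, ?_⟩, rfl⟩
        · rw [edge_eq]; exact hq
        · rw [edge_eq]
          exact (h.injective.mem_set_image).1 ((h1 j).superset hj)
  · rw [← range_comp]
    congr 1
    funext i
    simp only [Function.comp_apply]
    rw [pend_eq, pend_eq]
    exact h3 i

theorem tau_pend (ε : ℝ) (i : ZMod 14) :
    tau (xx i + ε • dir xx i) = yy (i + 7) + ε • dir yy (i + 7) := by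
  unfold dir
  have h1 : i + 7 - 1 = (i - 1) + 7 := by ring
  have h2 : i + 7 + 1 = (i + 1) + 7 := by ring
  rw [h1, h2, ← tau_xx, ← tau_xx, ← tau_xx]
  simp only [tau_apply]
  apply Prod.ext
  · simp
  · simp; try ring

/-- the first polygon -/
def X : Fin 14 → ℝ × ℝ := xx

/-- the second polygon -/
def Y : Fin 14 → ℝ × ℝ := yy

/-- the shift of the labels by seven -/
def sh (i : Fin 14) : Fin 14 := (show ZMod 14 from i) + (7 : ZMod 14)

theorem sh_sh (i : Fin 14) : sh (sh i) = i := by revert i; decide +kernel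

theorem tau_X (i : Fin 14) : tau (X i) = Y (sh i) := tau_xx i

theorem tau_E (i : Fin 14) : tau '' FEdge X i = FEdge Y (sh i) := by
  rw [edge_eq, edge_eq]
  exact tau_edge i

theorem tau_P (ε : ℝ) (i : Fin 14) : tau (FPend X ε i) = FPend Y ε (sh i) := by
  rw [pend_eq, pend_eq]
  exact tau_pend ε i

theorem image_range_shift (f g : Fin 14 → ℝ × ℝ) (h : ∀ i, tau (f i) = g (sh i)) :
    tau '' range f = range g := by
  ext p
  constructor
  · rintro ⟨_, ⟨i, rfl⟩, rfl⟩
    exact ⟨sh i, (h i).symm⟩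
  · rintro ⟨i, rfl⟩
    exact ⟨f (sh i), ⟨sh i, rfl⟩, by rw [h, sh_sh]⟩

theorem image_iUnion_shift (f g : Fin 14 → Set (ℝ × ℝ)) (h : ∀ i, tau '' f i = g (sh i)) :
    tau '' (⋃ i, f i) = ⋃ i, g i := by
  rw [image_iUnion]
  ext p
  simp only [mem_iUnion]
  constructor
  · rintro ⟨i, hi⟩
    exact ⟨sh i, by rw [← h]; exact hi⟩
  · rintro ⟨i, hi⟩
    exact ⟨sh i, by rw [h, sh_sh]; exact hi⟩

theorem tau_map (ε : ℝ) : tau '' FMap X ε = FMap Y ε := by
  unfold FMap
  rw [image_union]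
  congr 1
  · exact image_iUnion_shift _ _ tau_E
  · apply image_iUnion_shift
    intro i
    rw [tau_segment, tau_X, tau_P]

theorem tau_nodes (ε : ℝ) : tau '' FNodes X ε = FNodes Y ε := by
  unfold FNodes
  rw [image_union, image_union]
  congr 1
  · congr 1
    · exact image_range_shift _ _ tau_X
    · ext p
      constructor
      · rintro ⟨q, ⟨i, j, hij, hi, hj⟩, rfl⟩
        refine ⟨sh i, sh j, fun h => hij ?_, ?_, ?_⟩
        · rw [← sh_sh i, ← sh_sh j, h]
        · rw [← tau_E]; exact mem_image_of_mem _ hi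
        · rw [← tau_E]; exact mem_image_of_mem _ hj
      · rintro ⟨i, j, hij, hi, hj⟩
        rw [← sh_sh i, ← tau_E] at hi
        rw [← sh_sh j, ← tau_E] at hj
        obtain ⟨q, hq, rfl⟩ := hi
        exact ⟨q, ⟨sh i, sh j, fun h => hij (by rw [← sh_sh i, ← sh_sh j, h]), hq,
          (tau.injective.mem_set_image).1 hj⟩, rfl⟩
  · exact image_range_shift _ _ (tau_P ε)

theorem same : ∃ δ : ℝ, 0 < δ ∧ ∀ ε₁ ε₂ : ℝ, 0 < ε₁ → ε₁ < δ → 0 < ε₂ → ε₂ < δ →
      ∃ h : Homeomorph (ℝ × ℝ) (ℝ × ℝ), h '' FMap X ε₁ = FMap Y ε₂ ∧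
        h '' FNodes X ε₁ = FNodes Y ε₂ := by
  obtain ⟨δ, hδ, H⟩ := main ordinaryX properX
  refine ⟨δ, hδ, fun ε₁ ε₂ h1 h2 h3 h4 => ?_⟩
  obtain ⟨h, a1, a2, a3, a4⟩ := H ε₁ ε₂ h1 h2 h3 h4
  refine ⟨h.trans tau, ?_, ?_⟩
  · rw [← tau_map, ← map_self X h a1 a4, ← image_comp]
    rfl
  · rw [← tau_nodes, ← nodes_self X h a1 a2 a3, ← image_comp]
    rfl

theorem noPath (σ : Equiv.Perm (Fin 14))
    (hσ : (∀ i, σ (finRotate 14 i) = finRotate 14 (σ i)) ∨
      (∀ i, σ (finRotate 14 i) = (finRotate 14).symm (σ i)))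
    (hpar : ∀ i, ∃ c : ℝ, 0 < c ∧ Y (σ (finRotate 14 i)) - Y (σ i) =
      c • (X (finRotate 14 i) - X i))
    (P : ℝ → Fin 14 → ℝ × ℝ) (hc : ∀ j, ContinuousOn (fun t => P t j) (Set.Icc (0:ℝ) 1))
    (h0 : P 0 = X) (h1 : P 1 = fun i => Y (σ i))
    (ho : ∀ t ∈ Set.Icc (0:ℝ) 1, ∀ (p : ℝ × ℝ) (i j k : Fin 14), p ∈ FEdge (P t) i →
      p ∈ FEdge (P t) j → p ∈ FEdge (P t) k → i = j ∨ j = k ∨ i = k)
    (hp : ∀ t ∈ Set.Icc (0:ℝ) 1, ∀ i, ∃ c : ℝ, 0 < c ∧ P t (finRotate 14 i) - P t i =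
      c • (X (finRotate 14 i) - X i)) : False := by
  have hu := relabelling_unique (relabelling_of σ hσ)
    ((parallel_iff X (fun i => Y (σ i))).1 hpar)
  exact no_path hc h0 (h1.trans hu) (fun t ht => (ordinary_iff _).1 (ho t ht))
    (fun t ht => (parallel_iff _ _).1 (hp t ht))

end Pool.Agent.Q236.Pattern14
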