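import Mathlib
import Pool.Agent.Helper484.Crit.FG

/-!
The area of the convex hull of four points of the plane.
-/

set_option autoImplicit false

namespace Pool.Agent.Q236.QuadArea

open MeasureTheory Set Pool.Agent.Helper484.Crit Pool.Agent.Helper484.Crit.FG

/-- membership in the hull of four points, by weights -/
theorem mem_hull4 {p q r s x : P} (hx : x ∈ convexHull ℝ ({p, q, r, s} : Set P)) :
    ∃ a b c d : ℝ, 0 ≤ a ∧ 0 ≤ b ∧ 0 ≤ c ∧ 0 ≤ d ∧ a + b + c + d = 1 ∧
      x = a • p + b • q + c • r + d • s := by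
  have hconv : Convex ℝ {x : P | ∃ a b c d : ℝ, 0 ≤ a ∧ 0 ≤ b ∧ 0 ≤ c ∧ 0 ≤ d ∧
      a + b + c + d = 1 ∧ x = a • p + b • q + c • r + d • s} := by
    rintro x ⟨a, b, c, d, ha, hb, hc, hd, hsum, rfl⟩ y ⟨a', b', c', d', ha', hb', hc', hd', hsum', rfl⟩
      u v hu hv huv
    refine ⟨u * a + v * a', u * b + v * b', u * c + v * c', u * d + v * d', by positivity,
      by positivity, by positivity, by positivity, ?_, ?_⟩
    · linear_combination u * hsum + v * hsum' + huv
    · module
  refine convexHull_min ?_ hconv hx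
  rintro z hz
  simp only [mem_insert_iff, mem_singleton_iff] at hz
  rcases hz with rfl | rfl | rfl | rfl
  · exact ⟨1, 0, 0, 0, by simp⟩
  · exact ⟨0, 1, 0, 0, by simp⟩
  · exact ⟨0, 0, 1, 0, by simp⟩
  · exact ⟨0, 0, 0, 1, by simp⟩

theorem hull3_mem {p q r x : P} {a b c : ℝ} (ha : 0 ≤ a) (hb : 0 ≤ b) (hc : 0 ≤ c)
    (h : a + b + c = 1) (hx : x = a • p + b • q + c • r) :
    x ∈ convexHull ℝ ({p, q, r} : Set P) := by
  have hp : p ∈ convexHull ℝ ({p, q, r} : Set P) := subset_convexHull ℝ _ (by simp)
  have hq : q ∈ convexHull ℝ ({p, q, r} : Set P) := subset_convexHull ℝ _ (by simp)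
  have hr : r ∈ convexHull ℝ ({p, q, r} : Set P) := subset_convexHull ℝ _ (by simp)
  have hconv := convex_convexHull ℝ ({p, q, r} : Set P)
  rw [hx]
  exact hconv.sum_mem (t := Finset.univ) (w := ![a, b, c]) (z := ![p, q, r])
      (by intro i _; fin_cases i <;> simp <;> linarith)
      (by simp [Fin.sum_univ_three]; linarith)
      (by intro i _; fin_cases i <;> simp [hp, hq, hr])
      |> (by simpa [Fin.sum_univ_three] using ·)

theorem hull_subset {p q r s : P} {α β γ : ℝ} (h1 : α + β + γ = 1)
    (hs : s = α • p + β • q + γ • r) (hα : 0 ≤ α) (hβ : 0 ≤ β) (hγ : γ < 0) :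
    convexHull ℝ ({p, q, r, s} : Set P) ⊆
      convexHull ℝ ({p, q, r} : Set P) ∪ convexHull ℝ ({p, q, s} : Set P) := by
  intro x hx
  obtain ⟨a, b, c, d, ha, hb, hc, hd, hsum, hx⟩ := mem_hull4 hx
  by_cases h : -γ * d ≤ c
  · left
    refine hull3_mem (a := a + α * d) (b := b + β * d) (c := c + γ * d) (by positivity)
      (by positivity) (by linarith) ?_ ?_
    · linear_combination hsum + d * h1
    · rw [hx, hs]; module
  · right
    push Not at h
    have hg : 0 < -γ := by linarith
    obtain ⟨t, ht0, htc⟩ : ∃ t : ℝ, 0 ≤ t ∧ c = -(γ * t) :=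
      ⟨c / -γ, by positivity, by have := hγ.ne; field_simp⟩
    refine hull3_mem (a := a + α * t) (b := b + β * t) (c := d - t)
      (by positivity) (by positivity) ?_ ?_ ?_
    · rw [sub_nonneg]
      by_contra hcon
      push Not at hcon
      nlinarith
    · linear_combination hsum - htc + t * h1
    · rw [hx, hs, htc]; module

/-- the hull of `p, q, r` and a point of it -/
theorem hull_subset' {p q r s : P} {α β γ : ℝ} (h1 : α + β + γ = 1)
    (hs : s = α • p + β • q + γ • r) (hα : 0 ≤ α) (hβ : 0 ≤ β) (hγ : 0 ≤ γ) :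
    convexHull ℝ ({p, q, r, s} : Set P) ⊆ convexHull ℝ ({p, q, r} : Set P) := by
  refine convexHull_min ?_ (convex_convexHull ℝ _)
  intro z hz
  simp only [mem_insert_iff, mem_singleton_iff] at hz
  rcases hz with rfl | rfl | rfl | rfl
  · exact subset_convexHull ℝ _ (by simp)
  · exact subset_convexHull ℝ _ (by simp)
  · exact subset_convexHull ℝ _ (by simp)
  · exact hull3_mem hα hβ hγ h1 hs

/-- all cross products of differences of the four points are at most `M` -/
def CrBound (M : ℝ) (A : Set P) : Prop :=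
  ∀ x ∈ A, ∀ y ∈ A, ∀ z ∈ A, ∀ w ∈ A, |cr (x - y) (z - w)| ≤ M

theorem bary (p q r s : P) (h : cr (q - p) (r - p) ≠ 0) :
    s = (cr (q - s) (r - s) / cr (q - p) (r - p)) • p +
      (cr (r - s) (p - s) / cr (q - p) (r - p)) • q +
      (cr (p - s) (q - s) / cr (q - p) (r - p)) • r := by
  have e : ∀ a b c : ℝ, (a / cr (q - p) (r - p)) • p + (b / cr (q - p) (r - p)) • q +
      (c / cr (q - p) (r - p)) • r = (cr (q - p) (r - p))⁻¹ • (a • p + b • q + c • r) := by
    intro a b c
    rw [div_eq_inv_mul, div_eq_inv_mul, div_eq_inv_mul]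
    module
  rw [e]
  have h2 : cr (q - s) (r - s) • p + cr (r - s) (p - s) • q + cr (p - s) (q - s) • r =
      cr (q - p) (r - p) • s := by
    apply Prod.ext
    · simp only [cr, Prod.fst_add, Prod.snd_sub, Prod.fst_sub, Prod.smul_fst, smul_eq_mul]; ring
    · simp only [cr, Prod.snd_add, Prod.snd_sub, Prod.fst_sub, Prod.smul_snd, smul_eq_mul]; ring
  rw [h2, smul_smul, inv_mul_cancel₀ h, one_smul]

theorem bary_sum (p q r s : P) (h : cr (q - p) (r - p) ≠ 0) :
    (cr (q - s) (r - s) / cr (q - p) (r - p)) + (cr (r - s) (p - s) / cr (q - p) (r - p)) +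
      (cr (p - s) (q - s) / cr (q - p) (r - p)) = 1 := by
  rw [← add_div, ← add_div, div_eq_one_iff_eq h]
  simp only [cr, Prod.snd_sub, Prod.fst_sub]; ring

/-- the hull of four collinear points is a null set -/
theorem vol_collinear (A : Set P) (hA : ∀ x ∈ A, ∀ y ∈ A, ∀ z ∈ A, cr (y - x) (z - x) = 0) :
    volume (convexHull ℝ A) = 0 := by
  by_cases h : ∃ x ∈ A, ∃ y ∈ A, x ≠ y
  · obtain ⟨x, hx, y, hy, hxy⟩ := h
    have hsub : convexHull ℝ A ⊆ (AffineSubspace.mk' x (Submodule.span ℝ {y - x}) : Set P) := by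
      refine convexHull_min ?_ (AffineSubspace.convex _)
      intro z hz
      rw [SetLike.mem_coe, AffineSubspace.mem_mk', vsub_eq_sub, Submodule.mem_span_singleton]
      have h0 := hA x hx y hy z hz
      have h1 : y - x ≠ 0 := sub_ne_zero.2 (Ne.symm hxy)
      by_cases h2 : (y - x).1 = 0
      · have h3 : (y - x).2 ≠ 0 := fun h3 => h1 (Prod.ext h2 h3)
        refine ⟨(z - x).2 / (y - x).2, ?_⟩
        have h4 : (z - x).1 = 0 := by
          simp only [cr] at h0
          rw [h2] at h0
          have : (y - x).2 * (z - x).1 = 0 := by linarith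
          exact (mul_eq_zero.1 this).resolve_left h3
        apply Prod.ext
        · rw [Prod.smul_fst, h2, h4, smul_zero]
        · rw [Prod.smul_snd, smul_eq_mul, div_mul_cancel₀ _ h3]
      · refine ⟨(z - x).1 / (y - x).1, ?_⟩
        apply Prod.ext
        · rw [Prod.smul_fst, smul_eq_mul, div_mul_cancel₀ _ h2]
        · rw [Prod.smul_snd, smul_eq_mul]
          simp only [cr] at h0
          field_simp
          linarith
    refine measure_mono_null hsub ?_
    apply MeasureTheory.Measure.addHaar_affineSubspace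
    intro htop
    have h2 : (Submodule.span ℝ {y - x} : Submodule ℝ P) = ⊤ := by
      have := congrArg AffineSubspace.direction htop
      rwa [AffineSubspace.direction_mk', AffineSubspace.direction_top] at this
    have h3 := finrank_span_singleton (K := ℝ) (sub_ne_zero.2 (Ne.symm hxy))
    rw [h2, finrank_top] at h3
    simp at h3
  · push Not at h
    have hsub : A.Subsingleton := fun x hx y hy => h x hx y hy
    rcases hsub.eq_empty_or_singleton with h | ⟨x, h⟩
    · rw [h]; simp
    · rw [h, convexHull_singleton]; simp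

theorem quad_le_aux {p q r s : P} {α β γ M : ℝ} (hM : CrBound M {p, q, r, s})
    (h1 : α + β + γ = 1) (hs : s = α • p + β • q + γ • r) (hα : 0 ≤ α) (hβ : 0 ≤ β)
    (hγ : γ < 0) : volume (convexHull ℝ ({p, q, r, s} : Set P)) ≤ ENNReal.ofReal (M / 2) := by
  refine (measure_mono (hull_subset h1 hs hα hβ hγ)).trans ((measure_union_le _ _).trans ?_)
  refine (add_le_add (volume_triangle_le p q r) (volume_triangle_le p q s)).trans ?_
  rw [← ENNReal.ofReal_add (by positivity) (by positivity)]
  apply ENNReal.ofReal_le_ofReal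
  have h2 := hM q (by simp) p (by simp) r (by simp) s (by simp)
  have e1 : cr (q - p) (r - s) = (1 - γ) * cr (q - p) (r - p) := by
    have : r - s = (1 - γ) • (r - p) - β • (q - p) := by
      have hα' : α = 1 - β - γ := by linarith
      rw [hs, hα']; module
    rw [this]
    simp only [cr, Prod.snd_sub, Prod.fst_sub, Prod.smul_fst, Prod.smul_snd, smul_eq_mul]
    ring
  have e2 : cr (q - p) (s - p) = γ * cr (q - p) (r - p) := by
    have : s - p = γ • (r - p) + β • (q - p) := by
      have hα' : α = 1 - β - γ := by linarith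
      rw [hs, hα']; module
    rw [this]
    simp only [cr, Prod.snd_sub, Prod.fst_sub, Prod.smul_fst, Prod.smul_snd, smul_eq_mul,
      Prod.fst_add, Prod.snd_add]
    ring
  rw [e1, abs_mul, abs_of_pos (by linarith)] at h2
  rw [e2, abs_mul, abs_of_neg hγ]
  linarith

theorem insert_perm1 (p q r s : P) : ({p, q, r, s} : Set P) = {q, r, p, s} := by
  ext x; simp only [mem_insert_iff, mem_singleton_iff]; tauto

theorem insert_perm2 (p q r s : P) : ({p, q, r, s} : Set P) = {r, p, q, s} := by
  ext x; simp only [mem_insert_iff, mem_singleton_iff]; tauto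

/-- Upper bound for the area of the hull of four points, when `p, q, r` is a largest triangle. -/
theorem quad_le_of_max {p q r s : P} {M : ℝ} (hM : CrBound M {p, q, r, s})
    (h0 : cr (q - p) (r - p) ≠ 0)
    (ha : |cr (q - s) (r - s)| ≤ |cr (q - p) (r - p)|)
    (hb : |cr (r - s) (p - s)| ≤ |cr (q - p) (r - p)|)
    (hc : |cr (p - s) (q - s)| ≤ |cr (q - p) (r - p)|) :
    volume (convexHull ℝ ({p, q, r, s} : Set P)) ≤ ENNReal.ofReal (M / 2) := by
  have hs := bary p q r s h0
  have h1 := bary_sum p q r s h0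
  have hle : ∀ a : ℝ, |a| ≤ |cr (q - p) (r - p)| → a / cr (q - p) (r - p) ≤ 1 := by
    intro a h
    refine (le_abs_self _).trans ?_
    rw [abs_div]
    exact div_le_one_of_le₀ h (abs_nonneg _)
  have ha' := hle _ ha
  have hb' := hle _ hb
  have hc' := hle _ hc
  generalize cr (q - s) (r - s) / cr (q - p) (r - p) = α at *
  generalize cr (r - s) (p - s) / cr (q - p) (r - p) = β at *
  generalize cr (p - s) (q - s) / cr (q - p) (r - p) = γ at *
  by_cases hγ : γ < 0
  · exact quad_le_aux hM h1 hs (by linarith) (by linarith) hγ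
  by_cases hα : α < 0
  · rw [insert_perm1] at hM ⊢
    exact quad_le_aux (p := q) (q := r) (r := p) (α := β) (β := γ) (γ := α) hM (by linarith)
      (by rw [hs]; abel) (by linarith) (by linarith) hα
  by_cases hβ : β < 0
  · rw [insert_perm2] at hM ⊢
    exact quad_le_aux (p := r) (q := p) (r := q) (α := γ) (β := α) (γ := β) hM (by linarith)
      (by rw [hs]; abel) (by linarith) (by linarith) hβ
  push Not at hα hβ hγ
  refine (measure_mono (hull_subset' h1 hs hα hβ hγ)).trans ((volume_triangle_le p q r).trans ?_)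
  apply ENNReal.ofReal_le_ofReal
  have := hM q (by simp) p (by simp) r (by simp) p (by simp)
  linarith

/-- **Upper bound**: if all cross products of differences of the points are at most `M`, then the
hull has area at most `M / 2`. -/
theorem quad_le {M : ℝ} (v : Fin 4 → P) (hM : CrBound M (range v)) :
    volume (convexHull ℝ (range v)) ≤ ENNReal.ofReal (M / 2) := by
  obtain ⟨σ, hσ⟩ := Finite.exists_max (fun σ : Equiv.Perm (Fin 4) =>
    |cr (v (σ 1) - v (σ 0)) (v (σ 2) - v (σ 0))|)
  have hr : range v = {v (σ 0), v (σ 1), v (σ 2), v (σ 3)} := by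
    rw [← σ.surjective.range_comp]
    ext x
    simp only [mem_range, Fin.exists_fin_succ, Function.comp_apply, mem_insert_iff,
      mem_singleton_iff]
    simp [eq_comm]
  by_cases h0 : cr (v (σ 1) - v (σ 0)) (v (σ 2) - v (σ 0)) = 0
  · rw [vol_collinear]
    · exact bot_le
    rintro _ ⟨i, rfl⟩ _ ⟨j, rfl⟩ _ ⟨k, rfl⟩
    by_cases hij : i = j
    · subst hij; simp [cr]
    by_cases hik : i = k
    · subst hik; simp [cr]
    by_cases hjk : j = k
    · subst hjk; simp only [cr]; ring
    -- a permutation with the values i, j, k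
    obtain ⟨τ, h1, h2, h3⟩ : ∃ τ : Equiv.Perm (Fin 4), τ 0 = i ∧ τ 1 = j ∧ τ 2 = k := by
      revert i j k
      decide
    have := hσ τ
    simp only [h0, abs_zero, h1, h2, h3] at this
    exact abs_eq_zero.1 (le_antisymm this (abs_nonneg _))
  · rw [hr] at hM ⊢
    apply quad_le_of_max hM h0
    · have := hσ ((Equiv.swap 0 3).trans σ)
      simp only [Equiv.trans_apply] at this
      have e0 : (Equiv.swap (0 : Fin 4) 3) 0 = 3 := by decide
      have e1 : (Equiv.swap (0 : Fin 4) 3) 1 = 1 := by decide
      have e2 : (Equiv.swap (0 : Fin 4) 3) 2 = 2 := by decide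
      rwa [e0, e1, e2] at this
    · have := hσ ((Equiv.swap 1 3).trans σ)
      simp only [Equiv.trans_apply] at this
      have e0 : (Equiv.swap (1 : Fin 4) 3) 0 = 0 := by decide
      have e1 : (Equiv.swap (1 : Fin 4) 3) 1 = 3 := by decide
      have e2 : (Equiv.swap (1 : Fin 4) 3) 2 = 2 := by decide
      rw [e0, e1, e2] at this
      refine le_trans (le_of_eq ?_) this
      congr 1
      simp only [cr, Prod.snd_sub, Prod.fst_sub]; ring
    · have := hσ ((Equiv.swap 2 3).trans σ)
      simp only [Equiv.trans_apply] at this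
      have e0 : (Equiv.swap (2 : Fin 4) 3) 0 = 0 := by decide
      have e1 : (Equiv.swap (2 : Fin 4) 3) 1 = 1 := by decide
      have e2 : (Equiv.swap (2 : Fin 4) 3) 2 = 3 := by decide
      rw [e0, e1, e2] at this
      refine le_trans (le_of_eq ?_) this
      congr 1
      simp only [cr, Prod.snd_sub, Prod.fst_sub]; ring

theorem cr_vec (d u v : P) : cr u v • d = cr d v • u - cr d u • v := by
  apply Prod.ext
  · simp only [cr, Prod.smul_fst, Prod.fst_sub, smul_eq_mul]; ring
  · simp only [cr, Prod.smul_snd, Prod.snd_sub, smul_eq_mul]; ring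

/-- a line is a null set -/
theorem vol_line (p d : P) (hd : d ≠ 0) : volume {x : P | cr d (x - p) = 0} = 0 := by
  refine measure_mono_null (subset_convexHull ℝ _) (vol_collinear _ ?_)
  intro x hx y hy z hz
  rw [mem_setOf_eq] at hx hy hz
  have e1 : cr d (y - x) = 0 := by
    have : cr d (y - x) = cr d (y - p) - cr d (x - p) := by
      simp only [cr, Prod.fst_sub, Prod.snd_sub]; ring
    rw [this, hx, hy, sub_zero]
  have e2 : cr d (z - x) = 0 := by
    have : cr d (z - x) = cr d (z - p) - cr d (x - p) := by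
      simp only [cr, Prod.fst_sub, Prod.snd_sub]; ring
    rw [this, hx, hz, sub_zero]
  have := cr_vec d (y - x) (z - x)
  rw [e1, e2, zero_smul, zero_smul, sub_zero, smul_eq_zero] at this
  exact this.resolve_right hd

theorem convex_half (p d : P) : Convex ℝ {x : P | 0 ≤ cr d (x - p)} := by
  intro x hx y hy a b ha hb hab
  rw [mem_setOf_eq] at hx hy ⊢
  have : cr d (a • x + b • y - p) = a * cr d (x - p) + b * cr d (y - p) := by
    have hb' : b = 1 - a := by linarith
    subst hb'
    simp only [cr, Prod.fst_sub, Prod.snd_sub, Prod.fst_add, Prod.snd_add, Prod.smul_fst,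
      Prod.smul_snd, smul_eq_mul]
    ring
  rw [this]; positivity

theorem convex_half' (p d : P) : Convex ℝ {x : P | cr d (x - p) ≤ 0} := by
  have := convex_half p (-d)
  have e : {x : P | 0 ≤ cr (-d) (x - p)} = {x : P | cr d (x - p) ≤ 0} := by
    ext x
    rw [mem_setOf_eq, mem_setOf_eq]
    have : cr (-d) (x - p) = - cr d (x - p) := by
      simp only [cr, Prod.fst_neg, Prod.snd_neg]; ring
    rw [this, neg_nonneg]
  rwa [e] at this

theorem quad_ge_opp {p q r s : P} (h1 : 0 < cr (q - p) (r - p)) (h2 : cr (q - p) (s - p) < 0) :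
    ENNReal.ofReal (|cr (q - p) (r - s)| / 2) ≤ volume (convexHull ℝ ({p, q, r, s} : Set P)) := by
  have hsub : convexHull ℝ ({p, q, r} : Set P) ∪ convexHull ℝ ({p, q, s} : Set P) ⊆
      convexHull ℝ ({p, q, r, s} : Set P) := by
    refine union_subset (convexHull_mono ?_) (convexHull_mono ?_)
    · intro x hx
      simp only [mem_insert_iff, mem_singleton_iff] at hx ⊢
      tauto
    · intro x hx
      simp only [mem_insert_iff, mem_singleton_iff] at hx ⊢
      tauto
  have hd : q - p ≠ 0 := by
    intro h
    rw [h] at h1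
    simp [cr] at h1
  have ha : convexHull ℝ ({p, q, r} : Set P) ⊆ {x : P | 0 ≤ cr (q - p) (x - p)} := by
    refine convexHull_min ?_ (convex_half _ _)
    rintro z hz
    simp only [mem_insert_iff, mem_singleton_iff] at hz
    rw [mem_setOf_eq]
    rcases hz with rfl | rfl | rfl
    · simp [cr]
    · apply le_of_eq; simp only [cr]; ring
    · exact h1.le
  have hb : convexHull ℝ ({p, q, s} : Set P) ⊆ {x : P | cr (q - p) (x - p) ≤ 0} := by
    refine convexHull_min ?_ (convex_half' _ _)
    rintro z hz
    simp only [mem_insert_iff, mem_singleton_iff] at hz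
    rw [mem_setOf_eq]
    rcases hz with rfl | rfl | rfl
    · simp [cr]
    · apply le_of_eq; simp only [cr]; ring
    · exact h2.le
  have hdisj : AEDisjoint volume (convexHull ℝ ({p, q, r} : Set P))
      (convexHull ℝ ({p, q, s} : Set P)) := by
    refine measure_mono_null ?_ (vol_line p (q - p) hd)
    rintro x ⟨hx1, hx2⟩
    exact le_antisymm (hb hx2) (ha hx1)
  have hmeas : MeasurableSet (convexHull ℝ ({p, q, s} : Set P)) :=
    (Set.Finite.isCompact_convexHull ℝ (Set.toFinite _)).isClosed.measurableSet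
  refine le_trans ?_ (measure_mono hsub)
  rw [measure_union₀ hmeas.nullMeasurableSet hdisj]
  refine le_trans ?_ (add_le_add (volume_triangle_ge p q r) (volume_triangle_ge p q s))
  rw [← ENNReal.ofReal_add (by positivity) (by positivity)]
  apply ENNReal.ofReal_le_ofReal
  have e : cr (q - p) (r - s) = cr (q - p) (r - p) - cr (q - p) (s - p) := by
    simp only [cr, Prod.fst_sub, Prod.snd_sub]; ring
  rw [e, abs_of_pos (by linarith), abs_of_pos h1, abs_of_neg h2]
  linarith

theorem tri_ge_sub {p q r : P} {A : Set P} (hp : p ∈ A) (hq : q ∈ A) (hr : r ∈ A) :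
    ENNReal.ofReal (|cr (q - p) (r - p)| / 2) ≤ volume (convexHull ℝ A) := by
  refine (volume_triangle_ge p q r).trans (measure_mono (convexHull_mono ?_))
  rintro z hz
  simp only [mem_insert_iff, mem_singleton_iff] at hz
  rcases hz with rfl | rfl | rfl <;> assumption

/-- **Lower bound** for the area of the hull of four points. -/
theorem quad_ge {p q r s : P} {A : Set P} (hp : p ∈ A) (hq : q ∈ A) (hr : r ∈ A) (hs : s ∈ A) :
    ENNReal.ofReal (|cr (q - p) (r - s)| / 2) ≤ volume (convexHull ℝ A) := by
  have e : cr (q - p) (r - s) = cr (q - p) (r - p) - cr (q - p) (s - p) := by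
    simp only [cr, Prod.fst_sub, Prod.snd_sub]; ring
  have hmono : volume (convexHull ℝ ({p, q, r, s} : Set P)) ≤ volume (convexHull ℝ A) := by
    refine measure_mono (convexHull_mono ?_)
    rintro z hz
    simp only [mem_insert_iff, mem_singleton_iff] at hz
    rcases hz with rfl | rfl | rfl | rfl <;> assumption
  rcases lt_or_ge 0 (cr (q - p) (r - p)) with h1 | h1
  · rcases lt_or_ge (cr (q - p) (s - p)) 0 with h2 | h2
    · exact (quad_ge_opp h1 h2).trans hmono
    · -- both nonnegative
      rw [e]
      rcases le_total (cr (q - p) (s - p)) (cr (q - p) (r - p)) with h3 | h3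
      · refine le_trans (ENNReal.ofReal_le_ofReal ?_) (tri_ge_sub hp hq hr)
        rw [abs_of_nonneg (by linarith), abs_of_pos h1]; linarith
      · refine le_trans (ENNReal.ofReal_le_ofReal ?_) (tri_ge_sub hp hq hs)
        rw [abs_of_nonpos (by linarith), abs_of_nonneg h2]; linarith
  · rcases lt_or_ge 0 (cr (q - p) (s - p)) with h2 | h2
    · rcases lt_or_ge (cr (q - p) (r - p)) 0 with h3 | h3
      · have := quad_ge_opp (p := p) (q := q) (r := s) (s := r) h2 h3
        have e2 : cr (q - p) (s - r) = - cr (q - p) (r - s) := by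
          simp only [cr, Prod.fst_sub, Prod.snd_sub]; ring
        rw [e2, abs_neg] at this
        refine this.trans ?_
        refine measure_mono (convexHull_mono ?_)
        rintro z hz
        simp only [mem_insert_iff, mem_singleton_iff] at hz
        rcases hz with rfl | rfl | rfl | rfl <;> assumption
      · rw [e]
        refine le_trans (ENNReal.ofReal_le_ofReal ?_) (tri_ge_sub hp hq hs)
        have : cr (q - p) (r - p) = 0 := le_antisymm h1 h3
        rw [this, zero_sub, abs_neg]
    · rw [e]
      rcases le_total (cr (q - p) (s - p)) (cr (q - p) (r - p)) with h3 | h3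
      · refine le_trans (ENNReal.ofReal_le_ofReal ?_) (tri_ge_sub hp hq hs)
        rw [abs_of_nonneg (by linarith), abs_of_nonpos h2]; linarith
      · refine le_trans (ENNReal.ofReal_le_ofReal ?_) (tri_ge_sub hp hq hr)
        rw [abs_of_nonpos (by linarith), abs_of_nonpos h1]; linarith

end Pool.Agent.Q236.QuadArea
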