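import Mathlib
import Pool.Agent.Q236.MonoPoly

/-!
A polygon whose lower chain consists of points of a parabola and whose upper chain has `A` narrow
spikes, the tip of the `i`-th of which sees exactly the lower vertices from `-a i` to `b i`.
-/

set_option autoImplicit false

namespace Pool.Agent.Q236.Spikes

open Set Pool.Agent.Q236.MonoPoly

/-- parameters -/
structure Par where
  K : ℕ
  A : ℕ
  p : ℕ
  hK : 2 ≤ K
  hA : 1 ≤ A
  hp : 2 * K ≤ p
  a : ℕ → ℕ
  b : ℕ → ℕ
  ha : ∀ i, 1 ≤ a i ∧ a i + 1 ≤ K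
  hb : ∀ i, 1 ≤ b i ∧ b i + 1 ≤ K

variable (P : Par)

theorem Par.K2 : (2 : ℝ) ≤ P.K := by exact_mod_cast P.hK
theorem Par.A1 : (1 : ℝ) ≤ P.A := by exact_mod_cast P.hA

/-- abscissas of the lower chain -/
noncomputable def Par.X (k : ℕ) : ℝ :=
  if k + 1 ≤ 2 * P.K then (k : ℝ) - P.K
  else P.K - 1 + ((k : ℝ) - (2 * P.K - 1)) / ((P.p : ℝ) - (2 * P.K - 1))

theorem Par.den_pos : (0 : ℝ) < (P.p : ℝ) - (2 * P.K - 1) := by
  have : ((2 * P.K : ℕ) : ℝ) ≤ P.p := by exact_mod_cast P.hp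
  push_cast at this
  linarith

theorem Par.den_ge : (1 : ℝ) ≤ (P.p : ℝ) - (2 * P.K - 1) := by
  have : ((2 * P.K : ℕ) : ℝ) ≤ P.p := by exact_mod_cast P.hp
  push_cast at this
  linarith

theorem Par.X_step (k : ℕ) : P.X k < P.X (k + 1) ∧ P.X (k + 1) ≤ P.X k + 1 := by
  unfold Par.X
  have hd := P.den_pos
  have hd1 := P.den_ge
  have e1 : 1 / ((P.p : ℝ) - (2 * P.K - 1)) ≤ 1 := by
    rw [div_le_one hd]; exact hd1
  have e0 : 0 < 1 / ((P.p : ℝ) - (2 * P.K - 1)) := by positivity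
  by_cases h1 : k + 1 + 1 ≤ 2 * P.K
  · rw [if_pos (by omega), if_pos h1]
    push_cast
    constructor <;> linarith
  · rw [if_neg h1]
    by_cases h2 : k + 1 ≤ 2 * P.K
    · rw [if_pos h2]
      have h3 : k + 1 = 2 * P.K := by omega
      have h3' : (k : ℝ) + 1 = 2 * P.K := by exact_mod_cast h3
      have e : ((k + 1 : ℕ) : ℝ) - (2 * P.K - 1) = 1 := by push_cast; linarith
      rw [e]
      constructor <;> linarith
    · rw [if_neg h2]
      have e : (((k + 1 : ℕ) : ℝ) - (2 * P.K - 1)) / ((P.p : ℝ) - (2 * P.K - 1)) =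
          ((k : ℝ) - (2 * P.K - 1)) / ((P.p : ℝ) - (2 * P.K - 1)) +
            1 / ((P.p : ℝ) - (2 * P.K - 1)) := by
        rw [← add_div]; congr 1; push_cast; ring
      rw [e]
      constructor <;> linarith

theorem Par.X_zero : P.X 0 = -(P.K : ℝ) := by
  unfold Par.X
  have := P.hK
  rw [if_pos (by omega)]
  simp

theorem Par.X_last : P.X P.p = (P.K : ℝ) := by
  unfold Par.X
  have := P.hK
  have := P.hp
  rw [if_neg (by omega), div_self P.den_pos.ne']
  ring

theorem Par.X_mono {i j : ℕ} (h : i ≤ j) : P.X i ≤ P.X j := by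
  induction j, h using Nat.le_induction with
  | base => exact le_rfl
  | succ j _ ih => exact ih.trans (P.X_step j).1.le

theorem Par.X_left (j : ℕ) (h : j ≤ P.K) : P.X (P.K - j) = -(j : ℝ) := by
  unfold Par.X
  have := P.hK
  rw [if_pos (by omega), Nat.cast_sub h]
  ring

theorem Par.X_right (j : ℕ) (h : j + 1 ≤ P.K) : P.X (P.K + j) = (j : ℝ) := by
  unfold Par.X
  have := P.hK
  rw [if_pos (by omega)]
  push_cast
  ring

/-- the line through consecutive points of the lower chain -/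
noncomputable def Par.line (k : ℕ) (t : ℝ) : ℝ := (P.X k + P.X (k + 1)) * t - P.X k * P.X (k + 1)

theorem Par.range_ne : (Finset.range P.p).Nonempty := by
  rw [Finset.nonempty_range_iff]
  have := P.hK
  have := P.hp
  omega

/-- the lower function -/
noncomputable def Par.g (t : ℝ) : ℝ := (Finset.range P.p).sup' P.range_ne (fun k => P.line k t)

theorem Par.g_cont : Continuous P.g := by
  unfold Par.g
  apply Continuous.finset_sup'_apply
  intro k _
  unfold Par.line
  fun_prop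

theorem Par.line_le (k : ℕ) (t : ℝ) (h : t ≤ P.X k ∨ P.X (k + 1) ≤ t) : P.line k t ≤ t ^ 2 := by
  have h1 := (P.X_step k).1
  unfold Par.line
  rcases h with h | h
  · nlinarith
  · nlinarith

theorem Par.le_line (k : ℕ) (t : ℝ) (h1 : P.X k ≤ t) (h2 : t ≤ P.X (k + 1)) :
    t ^ 2 ≤ P.line k t := by
  unfold Par.line
  nlinarith

theorem Par.g_eq (k : ℕ) (hk : k < P.p) (t : ℝ) (h1 : P.X k ≤ t) (h2 : t ≤ P.X (k + 1)) :
    P.g t = P.line k t := by
  apply le_antisymm
  · unfold Par.g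
    apply Finset.sup'_le
    intro l _
    rcases lt_trichotomy l k with h | h | h
    · refine (P.line_le l t (Or.inr ?_)).trans (P.le_line k t h1 h2)
      exact (P.X_mono (by omega : l + 1 ≤ k)).trans h1
    · rw [h]
    · refine (P.line_le l t (Or.inl ?_)).trans (P.le_line k t h1 h2)
      exact h2.trans (P.X_mono (by omega : k + 1 ≤ l))
  · unfold Par.g
    exact Finset.le_sup' (fun k => P.line k t) (Finset.mem_range.2 hk)

theorem Par.g_X (k : ℕ) (hk : k < P.p) : P.g (P.X k) = P.X k ^ 2 := by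
  rw [P.g_eq k hk _ le_rfl (P.X_step k).1.le]
  unfold Par.line
  ring

theorem Par.line_lt (k : ℕ) (hk : k < P.p) (t : ℝ) (h1 : -(P.K : ℝ) < t) (h2 : t < P.K) :
    P.line k t < (P.K : ℝ) ^ 2 := by
  have hK := P.K2
  have b1 : -(P.K : ℝ) ≤ P.X k := by rw [← P.X_zero]; exact P.X_mono (Nat.zero_le _)
  have b2 : P.X (k + 1) ≤ P.K := by rw [← P.X_last]; exact P.X_mono (by omega)
  obtain ⟨s1, s2⟩ := P.X_step k
  have e : (P.K : ℝ) ^ 2 - P.line k t = ((P.K - t) * ((P.K + P.X k) * (P.K + P.X (k + 1))) +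
      (P.K + t) * ((P.K - P.X k) * (P.K - P.X (k + 1)))) / (2 * P.K) := by
    unfold Par.line
    field_simp
    ring
  have hpos : 0 < ((P.K - t) * ((P.K + P.X k) * (P.K + P.X (k + 1))) +
      (P.K + t) * ((P.K - P.X k) * (P.K - P.X (k + 1)))) / (2 * P.K) := by
    apply div_pos _ (by linarith)
    rcases b1.eq_or_lt with h | h
    · have z1 : (0 : ℝ) < P.K - P.X k := by linarith
      have z2 : (0 : ℝ) < P.K - P.X (k + 1) := by linarith
      have z3 : (P.K : ℝ) + P.X k = 0 := by linarith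
      rw [z3]
      have := mul_pos (by linarith : (0 : ℝ) < P.K + t) (mul_pos z1 z2)
      linarith
    · have z1 : (0 : ℝ) < P.K + P.X k := by linarith
      have z2 : (0 : ℝ) < P.K + P.X (k + 1) := by linarith
      have z3 : (0 : ℝ) ≤ P.K - P.X k := by linarith
      have z4 : (0 : ℝ) ≤ P.K - P.X (k + 1) := by linarith
      have := mul_pos (by linarith : (0 : ℝ) < P.K - t) (mul_pos z1 z2)
      have := mul_nonneg (by linarith : (0 : ℝ) ≤ P.K + t) (mul_nonneg z3 z4)
      linarith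
  linarith

theorem Par.g_lt (t : ℝ) (h1 : -(P.K : ℝ) < t) (h2 : t < P.K) : P.g t < (P.K : ℝ) ^ 2 := by
  unfold Par.g
  rw [Finset.sup'_lt_iff]
  intro k hk
  exact P.line_lt k (Finset.mem_range.1 hk) t h1 h2

/-- the epigraph of `g` is convex -/
theorem Par.g_combo {x y z w : ℝ} (h1 : P.g x ≤ y) (h2 : P.g z ≤ w) {s : ℝ} (h3 : 0 ≤ s)
    (h4 : s ≤ 1) : P.g ((1 - s) * x + s * z) ≤ (1 - s) * y + s * w := by
  unfold Par.g at *
  rw [Finset.sup'_le_iff] at h1 h2
  apply Finset.sup'_le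
  intro k hk
  have a1 := h1 k hk
  have a2 := h2 k hk
  have e : P.line k ((1 - s) * x + s * z) = (1 - s) * P.line k x + s * P.line k z := by
    unfold Par.line; ring
  rw [e]
  nlinarith

/-! ### the upper chain -/

/-- half of the width of the mouths together -/
noncomputable def Par.δ : ℝ := 1 / (8 * (P.K : ℝ) ^ 2)

/-- width of a mouth -/
noncomputable def Par.w : ℝ := 2 * P.δ / P.A

/-- mouth vertices -/
noncomputable def Par.m (i : ℕ) : ℝ := -P.δ + i * P.w

/-- left and right slopes -/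
noncomputable def Par.Sl (i : ℕ) : ℝ := ((P.K : ℝ) ^ 2 - (P.a i : ℝ) ^ 2) / P.a i - 1 / 2
noncomputable def Par.Sr (i : ℕ) : ℝ := ((P.K : ℝ) ^ 2 - (P.b i : ℝ) ^ 2) / P.b i - 1 / 2

theorem Par.δ_pos : 0 < P.δ := by
  have := P.K2
  unfold Par.δ
  positivity

theorem Par.w_pos : 0 < P.w := by
  have := P.δ_pos
  have := P.A1
  unfold Par.w
  positivity

theorem Par.δ_small : P.δ ≤ 1 / 32 := by
  have := P.K2
  unfold Par.δ
  apply one_div_le_one_div_of_le (by norm_num)
  nlinarith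

theorem Par.m_zero : P.m 0 = -P.δ := by simp [Par.m]

theorem Par.m_last : P.m P.A = P.δ := by
  have := P.A1
  unfold Par.m Par.w
  field_simp
  ring

theorem Par.m_succ (i : ℕ) : P.m (i + 1) = P.m i + P.w := by
  unfold Par.m; push_cast; ring

theorem Par.m_mono {i j : ℕ} (h : i ≤ j) : P.m i ≤ P.m j := by
  have := P.w_pos
  unfold Par.m
  have : (i : ℝ) ≤ j := by exact_mod_cast h
  nlinarith

theorem slope_bounds (K a : ℕ) (h1 : 1 ≤ a) (h2 : a + 1 ≤ K) :
    0 < ((K : ℝ) ^ 2 - (a : ℝ) ^ 2) / a - 1 / 2 ∧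
      ((K : ℝ) ^ 2 - (a : ℝ) ^ 2) / a - 1 / 2 ≤ (K : ℝ) ^ 2 := by
  have ha : (1 : ℝ) ≤ a := by exact_mod_cast h1
  have hK : (a : ℝ) + 1 ≤ K := by exact_mod_cast h2
  constructor
  · have : 1 ≤ ((K : ℝ) ^ 2 - (a : ℝ) ^ 2) / a := by
      rw [le_div_iff₀ (by linarith)]
      nlinarith
    linarith
  · have : ((K : ℝ) ^ 2 - (a : ℝ) ^ 2) / a ≤ (K : ℝ) ^ 2 := by
      rw [div_le_iff₀ (by linarith)]
      nlinarith [sq_nonneg (K : ℝ)]
    linarith

theorem Par.Sl_pos (i : ℕ) : 0 < P.Sl i := (slope_bounds P.K (P.a i) (P.ha i).1 (P.ha i).2).1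
theorem Par.Sr_pos (i : ℕ) : 0 < P.Sr i := (slope_bounds P.K (P.b i) (P.hb i).1 (P.hb i).2).1

/-- a bump -/
noncomputable def Par.bump (i : ℕ) (t : ℝ) : ℝ :=
  max 0 (min (P.Sl i * (t - P.m i)) (P.Sr i * (P.m (i + 1) - t)))

/-- the upper function -/
noncomputable def Par.f (t : ℝ) : ℝ := (P.K : ℝ) ^ 2 + ∑ i ∈ Finset.range P.A, P.bump i t

theorem Par.f_cont : Continuous P.f := by
  unfold Par.f Par.bump
  fun_prop

theorem Par.f_ge (t : ℝ) : (P.K : ℝ) ^ 2 ≤ P.f t := by
  unfold Par.f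
  have : 0 ≤ ∑ i ∈ Finset.range P.A, P.bump i t :=
    Finset.sum_nonneg (fun i _ => le_max_left _ _)
  linarith

theorem Par.bump_left (i : ℕ) (t : ℝ) (h : t ≤ P.m i) : P.bump i t = 0 := by
  unfold Par.bump
  apply max_eq_left
  refine (min_le_left _ _).trans ?_
  have := P.Sl_pos i
  nlinarith

theorem Par.bump_right (i : ℕ) (t : ℝ) (h : P.m (i + 1) ≤ t) : P.bump i t = 0 := by
  unfold Par.bump
  apply max_eq_left
  refine (min_le_right _ _).trans ?_
  have := P.Sr_pos i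
  nlinarith

theorem Par.f_left (t : ℝ) (h : t ≤ P.m 0) : P.f t = (P.K : ℝ) ^ 2 := by
  unfold Par.f
  rw [Finset.sum_eq_zero, add_zero]
  intro i _
  exact P.bump_left i t (h.trans (P.m_mono (Nat.zero_le _)))

theorem Par.f_right (t : ℝ) (h : P.m P.A ≤ t) : P.f t = (P.K : ℝ) ^ 2 := by
  unfold Par.f
  rw [Finset.sum_eq_zero, add_zero]
  intro i hi
  have := Finset.mem_range.1 hi
  exact P.bump_right i t ((P.m_mono (by omega)).trans h)

theorem Par.f_mid (i : ℕ) (hi : i < P.A) (t : ℝ) (h1 : P.m i ≤ t) (h2 : t ≤ P.m (i + 1)) :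
    P.f t = (P.K : ℝ) ^ 2 + min (P.Sl i * (t - P.m i)) (P.Sr i * (P.m (i + 1) - t)) := by
  unfold Par.f
  rw [Finset.sum_eq_single_of_mem i (Finset.mem_range.2 hi)]
  · congr 1
    unfold Par.bump
    apply max_eq_right
    have s1 := P.Sl_pos i
    have s2 := P.Sr_pos i
    apply le_min
    · exact mul_nonneg s1.le (by linarith)
    · exact mul_nonneg s2.le (by linarith)
  · intro j _ hne
    rcases lt_or_gt_of_ne hne with h | h
    · exact P.bump_right j t ((P.m_mono (by omega)).trans h1)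
    · exact P.bump_left j t (h2.trans (P.m_mono (by omega)))

/-- the tips -/
noncomputable def Par.tip (i : ℕ) : ℝ × ℝ :=
  (P.m i + P.w * P.Sr i / (P.Sl i + P.Sr i),
    (P.K : ℝ) ^ 2 + P.w * P.Sl i * P.Sr i / (P.Sl i + P.Sr i))

theorem Par.tip_left (i : ℕ) : (P.tip i).2 = (P.K : ℝ) ^ 2 + P.Sl i * ((P.tip i).1 - P.m i) := by
  have h1 := P.Sl_pos i
  have h2 := P.Sr_pos i
  unfold Par.tip
  simp only
  field_simp
  ring

theorem Par.tip_right (i : ℕ) :
    (P.tip i).2 = (P.K : ℝ) ^ 2 + P.Sr i * (P.m (i + 1) - (P.tip i).1) := by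
  have h1 := P.Sl_pos i
  have h2 := P.Sr_pos i
  rw [P.m_succ]
  unfold Par.tip
  simp only
  field_simp
  ring

theorem Par.tip_gt (i : ℕ) : P.m i < (P.tip i).1 := by
  have h1 := P.Sl_pos i
  have h2 := P.Sr_pos i
  have h3 := P.w_pos
  unfold Par.tip
  simp only
  have : 0 < P.w * P.Sr i / (P.Sl i + P.Sr i) := by positivity
  linarith

theorem Par.tip_lt (i : ℕ) : (P.tip i).1 < P.m (i + 1) := by
  have h1 := P.Sl_pos i
  have h2 := P.Sr_pos i
  have h3 := P.w_pos
  rw [P.m_succ]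
  unfold Par.tip
  simp only
  have : P.w * P.Sr i / (P.Sl i + P.Sr i) < P.w := by
    rw [div_lt_iff₀ (by linarith)]
    nlinarith
  linarith

/-- the upper chain -/
noncomputable def Par.U (k : ℕ) : ℝ × ℝ :=
  if k = 0 then (-(P.K : ℝ), (P.K : ℝ) ^ 2)
  else if k = 2 * P.A + 2 then ((P.K : ℝ), (P.K : ℝ) ^ 2)
  else if k % 2 = 1 then (P.m (k / 2), (P.K : ℝ) ^ 2) else P.tip (k / 2 - 1)

theorem Par.U_zero : P.U 0 = (-(P.K : ℝ), (P.K : ℝ) ^ 2) := by simp [Par.U]
theorem Par.U_last : P.U (2 * P.A + 2) = ((P.K : ℝ), (P.K : ℝ) ^ 2) := by simp [Par.U]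

theorem Par.U_odd (i : ℕ) : P.U (2 * i + 1) = (P.m i, (P.K : ℝ) ^ 2) := by
  unfold Par.U
  rw [if_neg (by omega), if_neg (by omega), if_pos (by omega)]
  congr 2
  omega

theorem Par.U_even (i : ℕ) (hi : i < P.A) : P.U (2 * i + 2) = P.tip i := by
  unfold Par.U
  rw [if_neg (by omega), if_neg (by omega), if_neg (by omega)]
  congr 1
  omega

theorem upper_cases (A k : ℕ) (hA : 1 ≤ A) (hk : k < 2 * A + 2) :
    k = 0 ∨ k = 2 * A + 1 ∨ (∃ i < A, k = 2 * i + 1) ∨ (∃ i < A, k = 2 * i + 2) := by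
  rcases Nat.even_or_odd' k with ⟨c, h | h⟩
  · rcases Nat.eq_zero_or_pos c with h0 | h0
    · left; omega
    · right; right; right
      exact ⟨c - 1, by omega, by omega⟩
  · rcases Nat.lt_or_ge c A with h1 | h1
    · right; right; left
      exact ⟨c, h1, h⟩
    · right; left; omega

theorem mem_seg_param {a b z : ℝ × ℝ} (hz : z ∈ segment ℝ a b) :
    ∃ s : ℝ, 0 ≤ s ∧ s ≤ 1 ∧ z.1 = (1 - s) * a.1 + s * b.1 ∧ z.2 = (1 - s) * a.2 + s * b.2 := by
  obtain ⟨u, s, hu, hs, hus, rfl⟩ := hz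
  have : u = 1 - s := by linarith
  subst this
  exact ⟨s, hs, by linarith, by simp, by simp⟩

/-- the polygon -/
noncomputable def Par.mono : Mono where
  p := P.p
  q := 2 * P.A + 2
  hp := by have := P.hK; have := P.hp; omega
  hq := by omega
  hpq := by have := P.hK; have := P.hp; omega
  L := fun k => (P.X k, P.X k ^ 2)
  U := P.U
  hL := fun k _ => (P.X_step k).1
  hU := by
    have hK := P.K2
    have hd := P.δ_pos
    have hd2 := P.δ_small
    intro k hk
    rcases upper_cases P.A k P.hA hk with rfl | rfl | ⟨i, hi, rfl⟩ | ⟨i, hi, rfl⟩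
    · rw [P.U_zero, show 0 + 1 = 2 * 0 + 1 by norm_num, P.U_odd, P.m_zero]
      simp only
      linarith
    · rw [P.U_odd, show 2 * P.A + 1 + 1 = 2 * P.A + 2 by ring, P.U_last, P.m_last]
      simp only
      linarith
    · rw [P.U_odd, show 2 * i + 1 + 1 = 2 * i + 2 by ring, P.U_even i hi]
      exact P.tip_gt i
    · rw [P.U_even i hi, show 2 * i + 2 + 1 = 2 * (i + 1) + 1 by ring, P.U_odd]
      exact P.tip_lt i
  h0 := by rw [P.U_zero, P.X_zero]; simp
  h1 := by rw [P.U_last, P.X_last]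
  f := P.f
  g := P.g
  hf := P.f_cont
  hg := P.g_cont
  hLg := by
    intro k hk z hz
    have hs := P.X_step k
    have hf := seg_fst (a := (P.X k, P.X k ^ 2)) (b := (P.X (k + 1), P.X (k + 1) ^ 2)) hs.1.le hz
    rw [P.g_eq k hk z.1 hf.1 hf.2]
    obtain ⟨s, -, -, h1, h2⟩ := mem_seg_param hz
    simp only at h1 h2
    unfold Par.line
    rw [h1, h2]
    ring
  hUf := by
    intro k hk z hz
    rcases upper_cases P.A k P.hA hk with rfl | rfl | ⟨i, hi, rfl⟩ | ⟨i, hi, rfl⟩
    · rw [P.U_zero, show 0 + 1 = 2 * 0 + 1 by norm_num, P.U_odd] at hz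
      obtain ⟨s, h3, h4, h1, h2⟩ := mem_seg_param hz
      simp only at h1 h2
      have hK := P.K2
      have hd2 := P.δ_small
      rw [P.f_left _ (by rw [h1, P.m_zero]; nlinarith), h2]
      ring
    · rw [P.U_odd, show 2 * P.A + 1 + 1 = 2 * P.A + 2 by ring, P.U_last] at hz
      obtain ⟨s, h3, h4, h1, h2⟩ := mem_seg_param hz
      simp only at h1 h2
      have hK := P.K2
      have hd2 := P.δ_small
      rw [P.f_right _ (by rw [h1, P.m_last]; nlinarith), h2]
      ring
    · rw [P.U_odd, show 2 * i + 1 + 1 = 2 * i + 2 by ring, P.U_even i hi] at hz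
      obtain ⟨s, h3, h4, h1, h2⟩ := mem_seg_param hz
      simp only at h1 h2
      have t1 := P.tip_gt i
      have t2 := P.tip_lt i
      have e1 := P.tip_left i
      have e2 := P.tip_right i
      have s1 := P.Sl_pos i
      have s2 := P.Sr_pos i
      have hz1 : P.m i ≤ z.1 := by rw [h1]; nlinarith
      have hz2 : z.1 ≤ (P.tip i).1 := by rw [h1]; nlinarith
      rw [P.f_mid i hi z.1 hz1 (hz2.trans t2.le), min_eq_left]
      · rw [h1, h2, e1]; ring
      · have : P.Sl i * (z.1 - P.m i) ≤ P.Sl i * ((P.tip i).1 - P.m i) :=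
          mul_le_mul_of_nonneg_left (by linarith) s1.le
        have : P.Sr i * (P.m (i + 1) - (P.tip i).1) ≤ P.Sr i * (P.m (i + 1) - z.1) :=
          mul_le_mul_of_nonneg_left (by linarith) s2.le
        linarith
    · rw [P.U_even i hi, show 2 * i + 2 + 1 = 2 * (i + 1) + 1 by ring, P.U_odd] at hz
      obtain ⟨s, h3, h4, h1, h2⟩ := mem_seg_param hz
      simp only at h1 h2
      have t1 := P.tip_gt i
      have t2 := P.tip_lt i
      have e1 := P.tip_left i
      have e2 := P.tip_right i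
      have s1 := P.Sl_pos i
      have s2 := P.Sr_pos i
      have hz1 : (P.tip i).1 ≤ z.1 := by rw [h1]; nlinarith
      have hz2 : z.1 ≤ P.m (i + 1) := by rw [h1]; nlinarith
      rw [P.f_mid i hi z.1 (t1.le.trans hz1) hz2, min_eq_right]
      · rw [h1, h2, e2]; ring
      · have : P.Sl i * ((P.tip i).1 - P.m i) ≤ P.Sl i * (z.1 - P.m i) :=
          mul_le_mul_of_nonneg_left (by linarith) s1.le
        have : P.Sr i * (P.m (i + 1) - z.1) ≤ P.Sr i * (P.m (i + 1) - (P.tip i).1) :=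
          mul_le_mul_of_nonneg_left (by linarith) s2.le
        linarith
  hgf := by
    intro x h1 h2
    simp only [P.X_zero, P.X_last] at h1 h2
    exact (P.g_lt x h1 h2).trans_le (P.f_ge x)

/-! ### no flat vertices -/

theorem Par.tip_high (i : ℕ) : (P.K : ℝ) ^ 2 < (P.tip i).2 := by
  have h1 := P.tip_left i
  have h2 := mul_pos (P.Sl_pos i) (sub_pos.2 (P.tip_gt i))
  linarith

theorem Par.vv_low (k : ℕ) (hk : k ≤ P.p) : P.mono.vv k = (P.X k, P.X k ^ 2) := by
  unfold Mono.vv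
  exact if_pos hk

theorem Par.vv_up (k : ℕ) (hk : P.p < k) : P.mono.vv k = P.U (P.p + (2 * P.A + 2) - k) := by
  unfold Mono.vv
  exact if_neg (not_le.2 hk)

/-- no vertex lies on the segment between its neighbours -/
theorem Par.nonflat' (k : ℕ) (hk : k < P.p + (2 * P.A + 2)) :
    P.mono.vv (k + 1) ∉ segment ℝ (P.mono.vv k)
      (P.mono.vv ((if k + 1 = P.p + (2 * P.A + 2) then 0 else k + 1) + 1)) := by
  intro hz
  obtain ⟨s, hs0, hs1, e1, e2⟩ := mem_seg_param hz
  clear hz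
  have hK := P.K2
  have hp := P.hp
  have hK' := P.hK
  have hA' := P.hA
  have hd := P.δ_pos
  have hd2 := P.δ_small
  rcases Nat.lt_or_ge (k + 1) P.p with h1 | h1
  · -- three lower vertices
    rw [if_neg (by omega), P.vv_low (k + 1) (by omega), P.vv_low k (by omega),
      P.vv_low (k + 1 + 1) (by omega)] at e1 e2
    simp only at e1 e2
    have a1 := (P.X_step k).1
    have a2 := (P.X_step (k + 1)).1
    have b1 : 0 < P.X (k + 1) - P.X k := by linarith
    have b2 : 0 < P.X (k + 1 + 1) - P.X (k + 1) := by linarith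
    have key : (P.X (k + 1) - P.X k) * (P.X (k + 1 + 1) - P.X (k + 1)) =
        s * (1 - s) * (P.X (k + 1 + 1) - P.X k) ^ 2 := by
      rw [e1]; ring
    have key2 : s * (1 - s) * (P.X (k + 1 + 1) - P.X k) ^ 2 = 0 := by
      have : ((1 - s) * P.X k + s * P.X (k + 1 + 1)) ^ 2 = (1 - s) * P.X k ^ 2 +
        s * P.X (k + 1 + 1) ^ 2 := by rw [← e1, e2]
      nlinarith
    have := mul_pos b1 b2
    linarith
  · rcases Nat.lt_or_ge P.p k with h2 | h2
    · rcases Nat.lt_or_ge (k + 1) (P.p + (2 * P.A + 2)) with h3 | h3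
      · -- three upper vertices
        rw [if_neg (by omega), P.vv_up (k + 1) (by omega), P.vv_up k (by omega),
          P.vv_up (k + 1 + 1) (by omega)] at e1 e2
        obtain ⟨j, hj⟩ : ∃ j, P.p + (2 * P.A + 2) - (k + 1 + 1) = j := ⟨_, rfl⟩
        have hj1 : P.p + (2 * P.A + 2) - (k + 1) = j + 1 := by omega
        have hj2 : P.p + (2 * P.A + 2) - k = j + 2 := by omega
        have hj3 : j + 2 < 2 * P.A + 2 := by omega
        rw [hj, hj1, hj2] at e1 e2
        rcases Nat.even_or_odd' j with ⟨c, hc | hc⟩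
        · subst hc
          rw [P.U_even c (by omega), P.U_odd] at e1 e2
          simp only at e1 e2
          have t1 := P.tip_high c
          have t2 := P.tip_gt c
          rcases Nat.eq_zero_or_pos c with h0 | h0
          · subst h0
            rw [mul_zero, P.U_zero] at e1 e2
            simp only at e1 e2
            have : (1 - s) * ((P.tip 0).2 - (P.K : ℝ) ^ 2) = 0 := by linarith
            rcases mul_eq_zero.1 this with h | h
            · have hs : s = 1 := by linarith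
              rw [hs, P.m_zero] at e1
              linarith
            · linarith
          · obtain ⟨d, rfl⟩ : ∃ d, c = d + 1 := ⟨c - 1, by omega⟩
            rw [show 2 * (d + 1) = 2 * d + 2 by ring, P.U_even d (by omega)] at e1 e2
            have t3 := P.tip_high d
            rcases hs0.eq_or_lt with h | h
            · rw [← h] at e2
              linarith
            · have q1 := mul_pos h (sub_pos.2 t3)
              have q2 := mul_nonneg (sub_nonneg.2 hs1) (sub_pos.2 t1).le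
              linarith
        · subst hc
          rw [show 2 * c + 1 + 2 = 2 * (c + 1) + 1 by ring, show 2 * c + 1 + 1 = 2 * c + 2 by ring,
            P.U_odd, P.U_odd, P.U_even c (by omega)] at e1 e2
          simp only at e1 e2
          have t1 := P.tip_high c
          nlinarith
      · -- the last vertex, the first one and the second one
        have h4 : k + 1 = P.p + (2 * P.A + 2) := by omega
        have hl : P.mono.vv (k + 1) = P.mono.vv 0 := by rw [h4]; exact P.mono.vv_last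
        rw [if_pos h4, hl, P.vv_low 0 (by omega), P.vv_low (0 + 1) (by omega),
          P.vv_up k (by omega), show P.p + (2 * P.A + 2) - k = 2 * 0 + 1 by omega, P.U_odd, P.X_zero, P.m_zero] at e1 e2
        simp only at e1 e2
        have a1 := (P.X_step 0).1
        have a2 : P.X (0 + 1) < P.X P.p := lt_of_lt_of_le (P.X_step 1).1 (P.X_mono (by omega))
        rw [P.X_zero] at a1
        rw [P.X_last] at a2
        have a3 : P.X (0 + 1) ^ 2 < (P.K : ℝ) ^ 2 := by nlinarith
        have : s * ((P.K : ℝ) ^ 2 - P.X (0 + 1) ^ 2) = 0 := by nlinarith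
        rcases mul_eq_zero.1 this with h | h
        · rw [h] at e1
          linarith
        · linarith
    · rcases Nat.lt_or_ge k P.p with h3 | h3
      · -- two lower vertices
        have h4 : k + 1 = P.p := by omega
        rw [if_neg (by omega), P.vv_low (k + 1) (by omega), P.vv_low k (by omega),
          P.vv_up (k + 1 + 1) (by omega), show P.p + (2 * P.A + 2) - (k + 1 + 1) = 2 * P.A + 1 by omega, P.U_odd, P.m_last]
          at e1 e2
        simp only at e1 e2
        rw [h4, P.X_last] at e1 e2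
        have a1 := (P.X_step k).1
        rw [h4, P.X_last] at a1
        have a2 : P.X 0 < P.X k := lt_of_lt_of_le (P.X_step 0).1 (P.X_mono (by omega))
        rw [P.X_zero] at a2
        have a3 : P.X k ^ 2 < (P.K : ℝ) ^ 2 := by nlinarith
        have : (1 - s) * ((P.K : ℝ) ^ 2 - P.X k ^ 2) = 0 := by nlinarith
        rcases mul_eq_zero.1 this with h | h
        · have hs : s = 1 := by linarith
          rw [hs] at e1
          linarith
        · linarith
      · -- one lower vertex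
        have h4 : k = P.p := by omega
        subst h4
        rw [if_neg (by omega), P.vv_low P.p le_rfl, P.vv_up (P.p + 1) (by omega),
          P.vv_up (P.p + 1 + 1) (by omega), show P.p + (2 * P.A + 2) - (P.p + 1 + 1) = 2 * (P.A - 1) + 2 by omega,
          show P.p + (2 * P.A + 2) - (P.p + 1) = 2 * P.A + 1 by omega, P.U_odd,
          P.U_even _ (by omega), P.m_last, P.X_last] at e1 e2
        simp only at e1 e2
        have t1 := P.tip_high (P.A - 1)
        have : s * ((P.tip (P.A - 1)).2 - (P.K : ℝ) ^ 2) = 0 := by linarith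
        rcases mul_eq_zero.1 this with h | h
        · rw [h] at e1
          linarith
        · linarith

/-- no vertex lies on the segment between its neighbours -/
theorem Par.nonflat (k : Fin (P.mono.p + P.mono.q)) :
    P.mono.v (finRotate _ k) ∉
      segment ℝ (P.mono.v k) (P.mono.v (finRotate _ (finRotate _ k))) := by
  intro hz
  rw [P.mono.v_rot, P.mono.v_rot, rot_val] at hz
  have hk : (k : ℕ) < P.p + (2 * P.A + 2) := k.2
  exact P.nonflat' k hk hz

/-! ### visibility -/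

theorem claim (K a j : ℕ) (h1 : 1 ≤ a) (h2 : a + 1 ≤ K) (hj : 1 ≤ j) (x : ℝ)
    (hx : |x| ≤ 1 / (8 * (K : ℝ) ^ 2)) :
    (j ≤ a → (j : ℝ) ^ 2 ≤ (K : ℝ) ^ 2 + (((K : ℝ) ^ 2 - (a : ℝ) ^ 2) / a - 1 / 2) * (-j - x)) ∧
    (a < j → (K : ℝ) ^ 2 + (((K : ℝ) ^ 2 - (a : ℝ) ^ 2) / a - 1 / 2) * (-j - x) < (j : ℝ) ^ 2) := by
  obtain ⟨s1, s2⟩ := slope_bounds K a h1 h2
  set S := ((K : ℝ) ^ 2 - (a : ℝ) ^ 2) / a - 1 / 2 with hS
  have ha : (1 : ℝ) ≤ a := by exact_mod_cast h1
  have hK : (a : ℝ) + 1 ≤ K := by exact_mod_cast h2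
  have hj' : (1 : ℝ) ≤ j := by exact_mod_cast hj
  have hK2 : (0 : ℝ) < (K : ℝ) ^ 2 := by
    have : (0 : ℝ) < K := by linarith
    positivity
  have hSx : |S * x| ≤ 1 / 8 := by
    rw [abs_mul, abs_of_pos s1]
    calc S * |x| ≤ (K : ℝ) ^ 2 * (1 / (8 * (K : ℝ) ^ 2)) :=
          mul_le_mul s2 hx (abs_nonneg _) hK2.le
      _ = 1 / 8 := by
          have hK0 : (K : ℝ) ≠ 0 := by linarith
          field_simp
  rw [abs_le] at hSx
  have e : (K : ℝ) ^ 2 + S * (-j - x) - (j : ℝ) ^ 2 =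
      ((a : ℝ) - j) * ((K : ℝ) ^ 2 / a + j) + j / 2 - S * x := by
    rw [hS]
    field_simp
    ring
  have hq : 0 < (K : ℝ) ^ 2 / a := by positivity
  constructor
  · intro h
    have h' : (j : ℝ) ≤ a := by exact_mod_cast h
    have := mul_nonneg (sub_nonneg.2 h') (by linarith : (0 : ℝ) ≤ (K : ℝ) ^ 2 / a + j)
    linarith [hSx.2]
  · intro h
    have h' : (a : ℝ) + 1 ≤ j := by exact_mod_cast h
    have : ((j : ℝ) - a - 1) * ((K : ℝ) ^ 2 / a + j) ≥ 0 := by
      apply mul_nonneg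
      · linarith
      · linarith
    nlinarith [hSx.1]

theorem Par.m_abs (i : ℕ) (hi : i ≤ P.A) : |P.m i| ≤ 1 / (8 * (P.K : ℝ) ^ 2) := by
  have h1 := P.m_mono (Nat.zero_le i)
  have h2 := P.m_mono hi
  rw [P.m_zero] at h1
  rw [P.m_last] at h2
  change |P.m i| ≤ P.δ
  rw [abs_le]
  exact ⟨h1, h2⟩

theorem Par.mem_region (z : ℝ × ℝ) : z ∈ region P.mono.v ↔
    -(P.K : ℝ) ≤ z.1 ∧ z.1 ≤ P.K ∧ P.g z.1 ≤ z.2 ∧ z.2 ≤ P.f z.1 := by
  rw [P.mono.region_eq]
  change (P.X 0 ≤ z.1 ∧ z.1 ≤ P.X P.p ∧ P.g z.1 ≤ z.2 ∧ z.2 ≤ P.f z.1) ↔ _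
  rw [P.X_zero, P.X_last]

theorem Par.g_left (j : ℕ) (h : j ≤ P.K) : P.g (-(j : ℝ)) = (j : ℝ) ^ 2 := by
  have h1 := P.hK
  have h2 := P.hp
  rw [← P.X_left j h, P.g_X _ (by omega), P.X_left j h]
  ring

theorem Par.g_right (j : ℕ) (h : j + 1 ≤ P.K) : P.g (j : ℝ) = (j : ℝ) ^ 2 := by
  have h1 := P.hK
  have h2 := P.hp
  rw [← P.X_right j h, P.g_X _ (by omega)]

/-- general visibility criterion from a tip, positive part -/
theorem Par.sees (i : ℕ) (hi : i < P.A) (t : ℝ × ℝ) (ht1 : -(P.K : ℝ) ≤ t.1) (ht2 : t.1 ≤ P.K)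
    (hg : P.g t.1 ≤ t.2) (hl : t.2 ≤ (P.K : ℝ) ^ 2 + P.Sl i * (t.1 - P.m i))
    (hr : t.2 ≤ (P.K : ℝ) ^ 2 + P.Sr i * (P.m (i + 1) - t.1)) :
    segment ℝ (P.tip i) t ⊆ region P.mono.v := by
  intro z hz
  obtain ⟨s, h0, h1, e1, e2⟩ := mem_seg_param hz
  have hK := P.K2
  have hd2 := P.δ_small
  have t1 := P.tip_gt i
  have t2 := P.tip_lt i
  have l1 := P.tip_left i
  have l2 := P.tip_right i
  have s1 := P.Sl_pos i
  have s2 := P.Sr_pos i
  have m0 := P.m_mono (Nat.zero_le i)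
  have m1 := P.m_mono (show i + 1 ≤ P.A by omega)
  rw [P.m_zero] at m0
  rw [P.m_last] at m1
  rw [P.mem_region]
  have hgt : P.g (P.tip i).1 ≤ (P.tip i).2 := by
    have h2 := (P.g_lt (P.tip i).1 (by linarith) (by linarith)).le
    have h3 : 0 ≤ P.Sl i * ((P.tip i).1 - P.m i) := mul_nonneg s1.le (by linarith)
    linarith
  refine ⟨?_, ?_, ?_, ?_⟩
  · rw [e1]; nlinarith
  · rw [e1]; nlinarith
  · rw [e1, e2]
    exact P.g_combo hgt hg h0 h1
  · have zl : z.2 ≤ (P.K : ℝ) ^ 2 + P.Sl i * (z.1 - P.m i) := by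
      have : (P.K : ℝ) ^ 2 + P.Sl i * (z.1 - P.m i) - z.2 =
          s * ((P.K : ℝ) ^ 2 + P.Sl i * (t.1 - P.m i) - t.2) := by
        rw [e1, e2, l1]; ring
      have h3 := mul_nonneg h0 (sub_nonneg.2 hl)
      linarith
    have zr : z.2 ≤ (P.K : ℝ) ^ 2 + P.Sr i * (P.m (i + 1) - z.1) := by
      have : (P.K : ℝ) ^ 2 + P.Sr i * (P.m (i + 1) - z.1) - z.2 =
          s * ((P.K : ℝ) ^ 2 + P.Sr i * (P.m (i + 1) - t.1) - t.2) := by
        rw [e1, e2, l2]; ring
      have h3 := mul_nonneg h0 (sub_nonneg.2 hr)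
      linarith
    by_cases hz2 : z.2 ≤ (P.K : ℝ) ^ 2
    · exact hz2.trans (P.f_ge _)
    · push Not at hz2
      have a1 : P.m i ≤ z.1 := by
        by_contra hcon
        push Not at hcon
        nlinarith
      have a2 : z.1 ≤ P.m (i + 1) := by
        by_contra hcon
        push Not at hcon
        nlinarith
      rw [P.f_mid i hi z.1 a1 a2]
      have : z.2 - (P.K : ℝ) ^ 2 ≤
          min (P.Sl i * (z.1 - P.m i)) (P.Sr i * (P.m (i + 1) - z.1)) :=
        le_min (by linarith) (by linarith)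
      linarith

theorem Par.f_mouth (i : ℕ) (hi : i ≤ P.A) : P.f (P.m i) = (P.K : ℝ) ^ 2 := by
  rcases hi.lt_or_eq with h | h
  · rw [P.f_mid i h _ le_rfl (P.m_mono (by omega)), min_eq_left]
    · ring
    · have := P.Sr_pos i
      have h2 := P.m_mono (show i ≤ i + 1 by omega)
      have := mul_nonneg this.le (sub_nonneg.2 h2)
      linarith
  · rw [h]; exact P.f_right _ le_rfl

/-- the left part of the view -/
theorem Par.left_view (i : ℕ) (hi : i < P.A) (j : ℕ) (hj : 1 ≤ j) (hjK : j + 1 ≤ P.K) :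
    segment ℝ (P.tip i) (-(j : ℝ), (j : ℝ) ^ 2) ⊆ region P.mono.v ↔ j ≤ P.a i := by
  have hK := P.K2
  have hjK' : (j : ℝ) + 1 ≤ P.K := by exact_mod_cast hjK
  have hj' : (1 : ℝ) ≤ j := by exact_mod_cast hj
  have hd2 := P.δ_small
  have hd := P.δ_pos
  have s1 := P.Sl_pos i
  have s2 := P.Sr_pos i
  have m0 := P.m_mono (Nat.zero_le i)
  have m1 := P.m_mono (show i + 1 ≤ P.A by omega)
  have m2 := P.m_mono (show i ≤ i + 1 by omega)
  rw [P.m_zero] at m0
  rw [P.m_last] at m1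
  obtain ⟨c1, c2⟩ := claim P.K (P.a i) j (P.ha i).1 (P.ha i).2 hj (P.m i) (P.m_abs i hi.le)
  constructor
  · intro h
    by_contra hcon
    push Not at hcon
    have c3 := c2 hcon
    change (P.K : ℝ) ^ 2 + P.Sl i * (-j - P.m i) < (j : ℝ) ^ 2 at c3
    have t1 := P.tip_gt i
    have t2 := P.tip_lt i
    have l1 := P.tip_left i
    -- the point above the mouth vertex
    have hd3 : 0 < (P.tip i).1 + j := by linarith
    set s := ((P.tip i).1 - P.m i) / ((P.tip i).1 + j) with hs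
    have hs0 : 0 < s := div_pos (by linarith) hd3
    have hs1 : s ≤ 1 := by
      rw [hs, div_le_one hd3]; linarith
    have hmem : ((1 - s) * (P.tip i).1 + s * (-(j : ℝ)), (1 - s) * (P.tip i).2 + s * (j : ℝ) ^ 2) ∈
        segment ℝ (P.tip i) (-(j : ℝ), (j : ℝ) ^ 2) :=
      ⟨1 - s, s, by linarith, hs0.le, by ring, by ext <;> simp⟩
    have h3 := h hmem
    rw [P.mem_region] at h3
    obtain ⟨-, -, -, h4⟩ := h3
    have hx : (1 - s) * (P.tip i).1 + s * (-(j : ℝ)) = P.m i := by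
      have : s * ((P.tip i).1 + j) = (P.tip i).1 - P.m i := div_mul_cancel₀ _ hd3.ne'
      linarith
    simp only [hx, P.f_mouth i hi.le] at h4
    rw [l1] at h4
    have : (P.tip i).1 - P.m i = s * ((P.tip i).1 + j) := (div_mul_cancel₀ _ hd3.ne').symm
    have e : (1 - s) * ((P.K : ℝ) ^ 2 + P.Sl i * ((P.tip i).1 - P.m i)) + s * (j : ℝ) ^ 2 -
        (P.K : ℝ) ^ 2 = s * ((j : ℝ) ^ 2 - ((P.K : ℝ) ^ 2 + P.Sl i * (-j - P.m i))) +
        P.Sl i * (((1 - s) * (P.tip i).1 + s * (-(j : ℝ))) - P.m i) := by ring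
    rw [hx] at e
    have := mul_pos hs0 (sub_pos.2 c3)
    linarith
  · intro h
    have c3 := c1 h
    apply P.sees i hi
    · simp only; linarith
    · simp only; linarith
    · simp only
      rw [P.g_left j (by omega)]
    · exact c3
    · simp only
      have : 0 ≤ P.Sr i * (P.m (i + 1) - -(j : ℝ)) := mul_nonneg s2.le (by linarith)
      nlinarith

/-- the right part of the view -/
theorem Par.right_view (i : ℕ) (hi : i < P.A) (j : ℕ) (hj : 1 ≤ j) (hjK : j + 1 ≤ P.K) :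
    segment ℝ (P.tip i) ((j : ℝ), (j : ℝ) ^ 2) ⊆ region P.mono.v ↔ j ≤ P.b i := by
  have hK := P.K2
  have hjK' : (j : ℝ) + 1 ≤ P.K := by exact_mod_cast hjK
  have hj' : (1 : ℝ) ≤ j := by exact_mod_cast hj
  have hd2 := P.δ_small
  have hd := P.δ_pos
  have s1 := P.Sl_pos i
  have s2 := P.Sr_pos i
  have m0 := P.m_mono (Nat.zero_le i)
  have m1 := P.m_mono (show i + 1 ≤ P.A by omega)
  have m2 := P.m_mono (show i ≤ i + 1 by omega)
  rw [P.m_zero] at m0
  rw [P.m_last] at m1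
  obtain ⟨c1, c2⟩ := claim P.K (P.b i) j (P.hb i).1 (P.hb i).2 hj (-P.m (i + 1))
    (by rw [abs_neg]; exact P.m_abs (i + 1) (by omega))
  constructor
  · intro h
    by_contra hcon
    push Not at hcon
    have c3 := c2 hcon
    change (P.K : ℝ) ^ 2 + P.Sr i * (-j - -P.m (i + 1)) < (j : ℝ) ^ 2 at c3
    have t1 := P.tip_gt i
    have t2 := P.tip_lt i
    have l1 := P.tip_right i
    have hd3 : 0 < (j : ℝ) - (P.tip i).1 := by linarith
    set s := (P.m (i + 1) - (P.tip i).1) / ((j : ℝ) - (P.tip i).1) with hs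
    have hs0 : 0 < s := div_pos (by linarith) hd3
    have hs1 : s ≤ 1 := by
      rw [hs, div_le_one hd3]; linarith
    have hmem : ((1 - s) * (P.tip i).1 + s * (j : ℝ), (1 - s) * (P.tip i).2 + s * (j : ℝ) ^ 2) ∈
        segment ℝ (P.tip i) ((j : ℝ), (j : ℝ) ^ 2) :=
      ⟨1 - s, s, by linarith, hs0.le, by ring, by ext <;> simp⟩
    have h3 := h hmem
    rw [P.mem_region] at h3
    obtain ⟨-, -, -, h4⟩ := h3
    have hx : (1 - s) * (P.tip i).1 + s * (j : ℝ) = P.m (i + 1) := by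
      have : s * ((j : ℝ) - (P.tip i).1) = P.m (i + 1) - (P.tip i).1 :=
        div_mul_cancel₀ _ hd3.ne'
      linarith
    simp only [hx, P.f_mouth (i + 1) (by omega)] at h4
    rw [l1] at h4
    have e : (1 - s) * ((P.K : ℝ) ^ 2 + P.Sr i * (P.m (i + 1) - (P.tip i).1)) + s * (j : ℝ) ^ 2 -
        (P.K : ℝ) ^ 2 = s * ((j : ℝ) ^ 2 - ((P.K : ℝ) ^ 2 + P.Sr i * (-j - -P.m (i + 1)))) +
        P.Sr i * (P.m (i + 1) - ((1 - s) * (P.tip i).1 + s * (j : ℝ))) := by ring
    rw [hx] at e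
    have := mul_pos hs0 (sub_pos.2 c3)
    linarith
  · intro h
    have c3 := c1 h
    change (j : ℝ) ^ 2 ≤ (P.K : ℝ) ^ 2 + P.Sr i * (-j - -P.m (i + 1)) at c3
    apply P.sees i hi
    · simp only; linarith
    · simp only; linarith
    · simp only
      rw [P.g_right j hjK]
    · simp only
      have : 0 ≤ P.Sl i * ((j : ℝ) - P.m i) := mul_nonneg s1.le (by linarith)
      nlinarith
    · simp only
      have e : P.Sr i * (P.m (i + 1) - (j : ℝ)) = P.Sr i * (-j - -P.m (i + 1)) := by ring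
      rw [e]; exact c3

end Pool.Agent.Q236.Spikes
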